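import Pool.Agent.H15SP.GP

/-!
# The curves linked with a curve by 2-isogenies
-/

set_option autoImplicit false
set_option linter.unusedSectionVars false

namespace Pool.Agent.H15SP

open WeierstrassCurve

open Pool.Agent.TH841.SH.D (rk)

open Pool.Agent.TH841.NO (SQ fo)

open Pool.Agent.Y676.IS (tri)

lemma Ec_disc {a b : ℤ} (hb : b ≠ 0) (h : a ^ 2 - 4 * b ≠ 0) : (Ec a b).Δ ≠ 0 := by
  have e : (Ec a b).Δ = 16 * (b : ℚ) ^ 2 * ((a : ℚ) ^ 2 - 4 * b) := by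
    unfold WeierstrassCurve.Δ WeierstrassCurve.b₂ WeierstrassCurve.b₄ WeierstrassCurve.b₆
      WeierstrassCurve.b₈ Ec
    ring
  rw [e]
  have hb' : (b : ℚ) ≠ 0 := by exact_mod_cast hb
  have h' : (a : ℚ) ^ 2 - 4 * b ≠ 0 := by exact_mod_cast h
  exact mul_ne_zero (mul_ne_zero (by norm_num) (pow_ne_zero 2 hb')) h'

/-- the changes of variables between the equations -/
theorem vc_ab {p q : ℤ × ℤ} (C : VariableChange ℚ) (hC : C • Ec p.1 p.2 = Ec q.1 q.2) :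
    ∃ r v : ℚ, v ≠ 0 ∧ r * (r ^ 2 + p.1 * r + p.2) = 0 ∧ (q.1 : ℚ) = (p.1 + 3 * r) * v ^ 2 ∧
      (q.2 : ℚ) = (p.2 + 2 * r * p.1 + 3 * r ^ 2) * v ^ 4 := by
  obtain ⟨u, hu⟩ : ∃ u : ℚ, u = (C.u : ℚ) := ⟨_, rfl⟩
  have hu0 : u ≠ 0 := by rw [hu]; exact C.u.ne_zero
  have hui : ((C.u⁻¹ : ℚˣ) : ℚ) = u⁻¹ := by rw [hu, Units.val_inv_eq_inv_val]
  have a1 := congrArg WeierstrassCurve.a₁ hC
  have a2 := congrArg WeierstrassCurve.a₂ hC
  have a3 := congrArg WeierstrassCurve.a₃ hC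
  have a4 := congrArg WeierstrassCurve.a₄ hC
  have a6 := congrArg WeierstrassCurve.a₆ hC
  rw [variableChange_a₁] at a1
  rw [variableChange_a₂] at a2
  rw [variableChange_a₃] at a3
  rw [variableChange_a₄] at a4
  rw [variableChange_a₆] at a6
  simp only [hui, Ec] at a1 a2 a3 a4 a6
  have hui0 : u⁻¹ ≠ 0 := inv_ne_zero hu0
  have hs : C.s = 0 := by
    have := (mul_eq_zero.1 a1).resolve_left hui0
    linarith
  have ht : C.t = 0 := by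
    have := (mul_eq_zero.1 a3).resolve_left (pow_ne_zero 3 hui0)
    linarith
  rw [hs] at a2 a4
  rw [ht] at a4 a6
  obtain ⟨r, hr⟩ : ∃ r : ℚ, r = C.r := ⟨_, rfl⟩
  rw [← hr] at a2 a4 a6
  have hroot := (mul_eq_zero.1 a6).resolve_left (pow_ne_zero 6 hui0)
  exact ⟨r, u⁻¹, hui0, by linear_combination hroot, by rw [← a2]; ring, by rw [← a4]; ring⟩

/-- one step: the same curve, or the 2-isogenous equation -/
def Next (p q : ℤ × ℤ) : Prop :=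
  (∃ C : VariableChange ℚ, C • Ec p.1 p.2 = Ec q.1 q.2) ∨ q = (-2 * p.1, p.1 ^ 2 - 4 * p.2)

/-- the equations of the curve with full 2-torsion -/
def T1 (A B : ℤ) (p : ℤ × ℤ) : Prop := ∃ (i : Fin 3) (v : ℚ), v ≠ 0 ∧
  (p.1 : ℚ) = -(((tri i A B).1 : ℚ) + ((tri i A B).2 : ℚ)) * v ^ 2 ∧
  (p.2 : ℚ) = ((tri i A B).1 : ℚ) * ((tri i A B).2 : ℚ) * v ^ 4

/-- the equations of the 2-isogenous curves -/
def T2 (A B : ℤ) (p : ℤ × ℤ) : Prop := ∃ (i : Fin 3) (v : ℚ), v ≠ 0 ∧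
  (p.1 : ℚ) = 2 * (((tri i A B).1 : ℚ) + ((tri i A B).2 : ℚ)) * v ^ 2 ∧
  (p.2 : ℚ) = (((tri i A B).1 : ℚ) - ((tri i A B).2 : ℚ)) ^ 2 * v ^ 4

lemma T1_mk {A B : ℤ} {q : ℤ × ℤ} {X Y : ℤ} (hXY : ∃ j, tri j A B = (X, Y) ∨ tri j A B = (Y, X))
    {v : ℚ} (hv : v ≠ 0) (h1 : (q.1 : ℚ) = -((X : ℚ) + Y) * v ^ 2)
    (h2 : (q.2 : ℚ) = (X : ℚ) * Y * v ^ 4) : T1 A B q := by
  obtain ⟨j, h | h⟩ := hXY
  · refine ⟨j, v, hv, ?_, ?_⟩
    · rw [h]; exact h1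
    · rw [h]; exact h2
  · refine ⟨j, v, hv, ?_, ?_⟩
    · rw [h]
      change (q.1 : ℚ) = -((Y : ℚ) + (X : ℚ)) * v ^ 2
      rw [h1]; ring
    · rw [h]
      change (q.2 : ℚ) = (Y : ℚ) * (X : ℚ) * v ^ 4
      rw [h2]; ring

lemma tri_inv1 (i : Fin 3) (A B : ℤ) : ∃ j,
    tri j A B = (-(tri i A B).1, (tri i A B).2 - (tri i A B).1) ∨
    tri j A B = ((tri i A B).2 - (tri i A B).1, -(tri i A B).1) := by
  fin_cases i
  · exact ⟨1, Or.inl rfl⟩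
  · refine ⟨0, Or.inl (Prod.ext ?_ ?_)⟩
    · change A = - -A
      ring
    · change B = (B - A) - -A
      ring
  · refine ⟨0, Or.inr (Prod.ext ?_ ?_)⟩
    · change A = (A - B) - -B
      ring
    · change B = - -B
      ring

lemma tri_inv2 (i : Fin 3) (A B : ℤ) : ∃ j,
    tri j A B = (-(tri i A B).2, (tri i A B).1 - (tri i A B).2) ∨
    tri j A B = ((tri i A B).1 - (tri i A B).2, -(tri i A B).2) := by
  fin_cases i
  · exact ⟨2, Or.inl rfl⟩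
  · refine ⟨2, Or.inr (Prod.ext ?_ ?_)⟩
    · change -B = -A - (B - A)
      ring
    · change A - B = -(B - A)
      ring
  · refine ⟨1, Or.inr (Prod.ext ?_ ?_)⟩
    · change -A = -B - (A - B)
      ring
    · change B - A = -(A - B)
      ring

/-- the changes of variables, full 2-torsion -/
lemma T1.iso {A B : ℤ} {p q : ℤ × ℤ} (h : T1 A B p) {r w : ℚ} (hw : w ≠ 0)
    (hr : r * (r ^ 2 + p.1 * r + p.2) = 0) (h1 : (q.1 : ℚ) = (p.1 + 3 * r) * w ^ 2)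
    (h2 : (q.2 : ℚ) = (p.2 + 2 * r * p.1 + 3 * r ^ 2) * w ^ 4) : T1 A B q := by
  obtain ⟨i, v, hv, e1, e2⟩ := h
  have hvw : v * w ≠ 0 := mul_ne_zero hv hw
  rw [e1, e2] at hr h2
  rw [e1] at h1
  rcases mul_eq_zero.1 hr with h0 | h0
  · exact ⟨i, v * w, hvw, by rw [h1, h0]; ring, by rw [h2, h0]; ring⟩
  · have h3 : (r - ((tri i A B).1 : ℚ) * v ^ 2) * (r - ((tri i A B).2 : ℚ) * v ^ 2) = 0 := by
      linear_combination h0
    rcases mul_eq_zero.1 h3 with h4 | h4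
    · have h5 : r = ((tri i A B).1 : ℚ) * v ^ 2 := by linarith
      rw [h5] at h1 h2
      refine T1_mk (tri_inv1 i A B) hvw ?_ ?_
      · rw [h1]; push_cast; ring
      · rw [h2]; push_cast; ring
    · have h5 : r = ((tri i A B).2 : ℚ) * v ^ 2 := by linarith
      rw [h5] at h1 h2
      refine T1_mk (tri_inv2 i A B) hvw ?_ ?_
      · rw [h1]; push_cast; ring
      · rw [h2]; push_cast; ring

/-- the changes of variables, the isogenous curves -/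
lemma T2.iso {A B : ℤ} (hsq : ∀ i : Fin 3, ¬ IsSquare ((tri i A B).1 * (tri i A B).2))
    {p q : ℤ × ℤ} (h : T2 A B p) {r w : ℚ} (hw : w ≠ 0)
    (hr : r * (r ^ 2 + p.1 * r + p.2) = 0) (h1 : (q.1 : ℚ) = (p.1 + 3 * r) * w ^ 2)
    (h2 : (q.2 : ℚ) = (p.2 + 2 * r * p.1 + 3 * r ^ 2) * w ^ 4) : T2 A B q := by
  obtain ⟨i, v, hv, e1, e2⟩ := h
  have hvw : v * w ≠ 0 := mul_ne_zero hv hw
  rw [e1, e2] at hr h2
  rw [e1] at h1
  rcases mul_eq_zero.1 hr with h0 | h0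
  · exact ⟨i, v * w, hvw, by rw [h1, h0]; ring, by rw [h2, h0]; ring⟩
  · exfalso
    apply hsq i
    rw [← Rat.isSquare_intCast_iff]
    refine ⟨(r / v ^ 2 + ((tri i A B).1 + (tri i A B).2)) / 2, ?_⟩
    push_cast
    field_simp
    linear_combination (-1) * h0

/-- the 2-isogeny -/
lemma T1.dual {A B : ℤ} {p : ℤ × ℤ} (h : T1 A B p) : T2 A B (-2 * p.1, p.1 ^ 2 - 4 * p.2) := by
  obtain ⟨i, v, hv, e1, e2⟩ := h
  refine ⟨i, v, hv, ?_, ?_⟩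
  · change ((-2 * p.1 : ℤ) : ℚ) = _
    push_cast
    rw [e1]; ring
  · change ((p.1 ^ 2 - 4 * p.2 : ℤ) : ℚ) = _
    push_cast
    rw [e1, e2]; ring

/-- the 2-isogeny -/
lemma T2.dual {A B : ℤ} {p : ℤ × ℤ} (h : T2 A B p) : T1 A B (-2 * p.1, p.1 ^ 2 - 4 * p.2) := by
  obtain ⟨i, v, hv, e1, e2⟩ := h
  refine ⟨i, 2 * v, mul_ne_zero two_ne_zero hv, ?_, ?_⟩
  · change ((-2 * p.1 : ℤ) : ℚ) = _
    push_cast
    rw [e1]; ring
  · change ((p.1 ^ 2 - 4 * p.2 : ℤ) : ℚ) = _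
    push_cast
    rw [e1, e2]; ring

/-- all the linked equations -/
theorem cl_next {A B : ℤ} (hsq : ∀ i : Fin 3, ¬ IsSquare ((tri i A B).1 * (tri i A B).2))
    {p q : ℤ × ℤ} (h : T1 A B p ∨ T2 A B p) (hn : Next p q) : T1 A B q ∨ T2 A B q := by
  rcases hn with ⟨C, hC⟩ | rfl
  · obtain ⟨r, w, hw, h1, h2, h3⟩ := vc_ab C hC
    exact h.imp (fun h => h.iso hw h1 h2 h3) (fun h => h.iso hsq hw h1 h2 h3)
  · exact h.symm.imp (fun h => h.dual) (fun h => h.dual)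

/-- all the linked equations -/
theorem cl_all {A B : ℤ} (hsq : ∀ i : Fin 3, ¬ IsSquare ((tri i A B).1 * (tri i A B).2))
    {p q : ℤ × ℤ} (h : T1 A B p ∨ T2 A B p) (hn : Relation.ReflTransGen Next p q) :
    T1 A B q ∨ T2 A B q := by
  induction hn with
  | refl => exact h
  | tail _ h2 ih => exact cl_next hsq ih h2

/-- the conclusion for one equation: rank zero, the number `n = f₁ + f₂` is even, with bounds -/
def Ok (lo hi : ℝ) (a b : ℤ) : Prop :=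
  rk (Ec a b) = 0 ∧ ∃ n : ℕ, fo a b + fo (-2 * a) (a ^ 2 - 4 * b) = n ∧ Even n ∧
    (fo a b = 0 ∨ fo (-2 * a) (a ^ 2 - 4 * b) = 0) ∧ lo ≤ (n : ℝ) ∧ (n : ℝ) ≤ hi

lemma fo_zero {a b : ℤ} (h : SQ a b ⊆ {1}) : fo a b = 0 := by
  have h5 := Set.ncard_le_ncard h (Set.finite_singleton _)
  rw [Set.ncard_singleton] at h5
  exact Nat.log_eq_zero_iff.2 (Or.inl (lt_of_le_of_lt h5 (by norm_num)))

/-- the conclusion for all the equations -/
theorem ok_of {A B : ℤ} (h : GP A B) {lo hi : ℝ} (hn : ∀ i, Nr lo hi (tri i A B)) {p : ℤ × ℤ}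
    (hp : T1 A B p ∨ T2 A B p) : Ok lo hi p.1 p.2 := by
  have key : ∀ q : ℤ × ℤ, T1 A B q → Fi lo hi q.1 q.2 := by
    rintro q ⟨i, v, hv, e1, e2⟩
    obtain ⟨t1, t2, t3⟩ := tri_ne h.A0 h.B0 h.AB i
    exact fi_of hv e1 e2 t1 t2 t3 (h.g i) (hn i) (tri_rk h.A0 h.B0 h.AB h.rk i)
  rcases hp with hp | hp
  · have hF := key p hp
    have h0 := fo_zero hF.s1
    exact ⟨hF.r1, fo p.1 p.2, by rw [h0, add_zero], hF.e1, Or.inr h0, hF.l1, hF.u1⟩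
  · have hF := key _ hp.dual
    simp only at hF
    have h0 : fo p.1 p.2 = 0 := fo_zero (sq_four.trans hF.s1)
    refine ⟨?_, fo (-2 * p.1) (p.1 ^ 2 - 4 * p.2), by rw [h0, zero_add], hF.e1, Or.inl h0, hF.l1,
      hF.u1⟩
    have hC2 : (⟨Units.mk0 (2 : ℚ)⁻¹ (inv_ne_zero two_ne_zero), 0, 0, 0⟩ : VariableChange ℚ) •
        Ec p.1 p.2 = Ec (-2 * (-2 * p.1)) ((-2 * p.1) ^ 2 - 4 * (p.1 ^ 2 - 4 * p.2)) :=
      vc_scale two_ne_zero (by push_cast; ring) (by push_cast; ring)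
    obtain ⟨i, v, hv, e1, e2⟩ := hp
    obtain ⟨t1, t2, t3⟩ := tri_ne h.A0 h.B0 h.AB i
    have hv4 := pow_ne_zero 4 hv
    have q1 : (((tri i A B).1 : ℤ) : ℚ) ≠ 0 := by exact_mod_cast t1
    have q2 : (((tri i A B).2 : ℤ) : ℚ) ≠ 0 := by exact_mod_cast t2
    have q3 : (((tri i A B).1 : ℤ) : ℚ) - (((tri i A B).2 : ℤ) : ℚ) ≠ 0 :=
      sub_ne_zero.2 (by exact_mod_cast t3)
    have hb0 : p.2 ≠ 0 := by
      intro h1
      rw [h1, Int.cast_zero] at e2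
      exact mul_ne_zero (pow_ne_zero 2 q3) hv4 e2.symm
    have hd0 : p.1 ^ 2 - 4 * p.2 ≠ 0 := by
      intro h1
      have h2 : ((p.1 : ℚ)) ^ 2 - 4 * p.2 = 0 := by exact_mod_cast h1
      rw [e1, e2] at h2
      exact mul_ne_zero (mul_ne_zero (mul_ne_zero (by norm_num : (16 : ℚ) ≠ 0) q1) q2) hv4
        (by linear_combination h2)
    rw [rk_vc _ hC2 (disc_vc _ hC2 (Ec_disc hb0 hd0))]
    exact hF.r2

end Pool.Agent.H15SP
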