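import Pool.Agent.R431.NO.Cnt
import Pool.Agent.Y667.PA.MainR

/-!
# The good pairs with the normal order of the number `f₁`
-/

set_option autoImplicit false
set_option linter.unusedSectionVars false

namespace Pool.Agent.H15SP

open Finset

open Pool.Agent.TH841.NO (SQ fo)

open Pool.Agent.Y676.IS (tri bx bx_mem bx_inj tri_cop tri_mul)

open Pool.Agent.R431.NO (M0 bx_tri2 M0_le scale)

open Pool.Agent.Y667.MT Pool.Agent.Y667.PA Pool.Agent.Y738.MT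

/-- the bounds for one pair -/
def Nr (lo hi : ℝ) (p : ℤ × ℤ) : Prop :=
  lo ≤ (fo (-(p.1 + p.2)) (p.1 * p.2) : ℝ) ∧ (fo (-(p.1 + p.2)) (p.1 * p.2) : ℝ) ≤ hi

lemma Nr.mono {lo hi lo' hi' : ℝ} {p : ℤ × ℤ} (h : Nr lo hi p) (h1 : lo' ≤ lo) (h2 : hi ≤ hi') :
    Nr lo' hi' p := ⟨h1.trans h.1, h.2.trans h2⟩

/-- almost all pairs, for one point of order two -/
theorem almost (D : ℤ) (hD : D ≠ 0) (i : Fin 3) (δ ε : ℝ) (L : ℕ) (hδ : 0 < δ) (hε : 0 < ε) :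
    ∃ X0 : ℕ, ∀ (N1 N2 : ℤ) (X : ℕ), X0 ≤ X → N1.natAbs ≤ X ^ L → N2.natAbs ≤ X ^ L →
      ∃ T : Finset (ℕ × ℕ), (T.card : ℝ) ≤ ε * X ^ 2 ∧ ∀ t ∈ Icc 1 X ×ˢ Icc 1 X,
        IsCoprime (N1 + (t.1 : ℤ)) (N2 + (t.2 : ℤ)) → t ∉ T →
        Nr ((3 / 2 - δ) * Real.log (Real.log (2 * X : ℕ)))
          ((3 / 2 + δ) * Real.log (Real.log (2 * X : ℕ)))
          (tri i (D * (N1 + (t.1 : ℤ))) (D * (N2 + (t.2 : ℤ)))) := by
  classical
  have havg := Pool.Agent.W307.FK.avgn_of Pool.Agent.W307.FK.expf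
  obtain ⟨R2, X2, g2⟩ := Pool.Agent.TH841.NO.norder2 Pool.Agent.TH841.NO.QULf.qul
    Pool.Agent.TH841.NO.QUMf.qum Pool.Agent.TH841.NO.LWAf.lwa Pool.Agent.TH841.NO.LWBf.lwb
    Pool.Agent.TH841.NO.LWBf.lwc Pool.Agent.TH841.NO.PRf.pra Pool.Agent.TH841.NO.PRf.prb
    Pool.Agent.TH841.NO.LIN2f.lin2 Pool.Agent.TH841.LS.CNT2Xf.cnt2x
    Pool.Agent.TH841.NO.CNTU2f.cntu2 havg D hD δ (ε / 8) (L + 2) hδ (by positivity)
  refine ⟨X2 + 1, fun N1 N2 X hX hN1 hN2 => ?_⟩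
  obtain ⟨hM1, hM2⟩ := M0_le i (by omega : 1 ≤ X) hN1 hN2
  have b2 := g2 (M0 i X N1 N2).1 (M0 i X N1 N2).2 (2 * X) (by omega) hM1 hM2
  set S2 := (Icc 1 (2 * X) ×ˢ Icc 1 (2 * X)).filter (fun t : ℕ × ℕ =>
        IsCoprime ((M0 i X N1 N2).1 + (t.1 : ℤ)) ((M0 i X N1 N2).2 + (t.2 : ℤ)) ∧
        ¬ ∀ A B : ℤ, A = D * ((M0 i X N1 N2).1 + (t.1 : ℤ)) →
          B = D * ((M0 i X N1 N2).2 + (t.2 : ℤ)) →
        A ≠ 0 ∧ B ≠ 0 ∧ A ≠ B ∧
        (3 / 2 - δ) * Real.log (Real.log (2 * X : ℕ)) ≤ fo (-(A + B)) (A * B) ∧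
        (fo (-(A + B)) (A * B) : ℝ) ≤ (3 / 2 + δ) * Real.log (Real.log (2 * X : ℕ)) ∧
        fo (2 * (A + B)) ((A - B) ^ 2) ≤ R2 ∧
        Pool.Agent.TH841.SH.D.rk (Pool.Agent.TH841.PT.EQ A B) ≤ R2) with hS2
  set S := (Icc 1 X ×ˢ Icc 1 X).filter (fun t : ℕ × ℕ => bx i X t ∈ S2) with hS
  refine ⟨S, ?_, ?_⟩
  · have hsub : S.image (bx i X) ⊆ S2 := by
      intro t' ht'
      obtain ⟨t, ht, rfl⟩ := mem_image.1 ht'
      exact (mem_filter.1 ht).2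
    have hcard : S.card ≤ S2.card := by
      rw [← card_image_of_injOn (s := S) (f := bx i X) (fun t ht t' ht' he =>
        bx_inj i (mem_filter.1 ht).1 (mem_filter.1 ht').1 he)]
      exact card_le_card hsub
    have hcard' : (S.card : ℝ) ≤ S2.card := by exact_mod_cast hcard
    push_cast at b2
    nlinarith [b2, hcard', mul_nonneg hε.le (sq_nonneg (X : ℝ))]
  · intro t ht1 ht2 ht3
    have hm := bx_mem i ht1
    have ht1' := ht1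
    rw [mem_product, mem_Icc, mem_Icc] at ht1'
    obtain ⟨e1, e2⟩ := bx_tri2 i N1 N2 ht1'.1.2 ht1'.2.2
    have hc := tri_cop i ht2
    have hcon : bx i X t ∉ S2 := fun h => ht3 (mem_filter.2 ⟨ht1, h⟩)
    rw [hS2, mem_filter, e1, e2] at hcon
    have d2 := not_not.1 (fun h => hcon ⟨hm, hc, h⟩)
    obtain ⟨-, -, -, l1, l2, -, -⟩ := d2 _ _ rfl rfl
    rw [tri_mul]
    exact ⟨l1, l2⟩

/-- **almost all coprime pairs** -/
theorem pairs (D : ℤ) (hD : D ≠ 0) (δ ε : ℝ) (hδ : 0 < δ) (hε : 0 < ε) :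
    ∃ X0 : ℕ, ∀ X : ℕ, X0 ≤ X → ∃ T : Finset (ℕ × ℕ), (T.card : ℝ) ≤ ε * X ^ 2 ∧
      ∀ t ∈ Icc 1 X ×ˢ Icc 1 X, IsCoprime (t.1 : ℤ) (t.2 : ℤ) → t ∉ T → ∀ i,
        Nr ((3 / 2 - δ) * Real.log (Real.log X)) ((3 / 2 + δ) * Real.log (Real.log X))
          (tri i (D * (t.1 : ℤ)) (D * (t.2 : ℤ))) := by
  classical
  have hm : 0 < min δ 1 := lt_min hδ one_pos
  have ha := fun i => almost D hD i (min δ 1 / 2) (ε / 3) 1 (by positivity) (by positivity)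
  choose X0 h using ha
  obtain ⟨M, hM⟩ := scale δ hδ 2 (by norm_num)
  refine ⟨∑ i, X0 i + M, fun X hX => ?_⟩
  have hXi : ∀ i, X0 i ≤ X := fun i => by
    have h1 : X0 i ≤ ∑ i, X0 i :=
      single_le_sum (f := fun i => X0 i) (fun _ _ => Nat.zero_le _) (mem_univ i)
    omega
  have hT := fun i => h i 0 0 X (hXi i) (by simp) (by simp)
  choose T hT1 hT2 using hT
  obtain ⟨s1, s2⟩ := hM X (2 * X) (by omega) (by omega) le_rfl
  refine ⟨univ.biUnion T, ?_, fun t ht hc hn i => ?_⟩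
  · have h1 : ((univ.biUnion T).card : ℝ) ≤ ∑ i, ((T i).card : ℝ) := by
      exact_mod_cast card_biUnion_le
    refine h1.trans ((sum_le_sum fun i _ => hT1 i).trans (le_of_eq ?_))
    rw [sum_const, card_univ, Fintype.card_fin, nsmul_eq_mul]
    push_cast
    ring
  · have h2 := hT2 i t ht (by rw [zero_add, zero_add]; exact hc)
      fun h' => hn (mem_biUnion.2 ⟨i, mem_univ _, h'⟩)
    rw [zero_add, zero_add] at h2
    exact h2.mono s1 s2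

/-- the good pairs with the normal order, `lo` and `hi` the bounds -/
def GN (lo hi : ℝ) (X : ℕ) (t : ℕ × ℕ) : Prop := GoodR 0 X t ∧ ∀ κ : ℤ, κ = 1 ∨ κ = 17 → ∀ i,
  Nr lo hi (tri i (κ * (t.1 : ℤ)) (κ * (t.2 : ℤ)))

open Classical in
/-- **many good pairs with the normal order** -/
theorem mainN : ∃ C : ℝ, 0 < C ∧ ∀ δ : ℝ, 0 < δ → ∃ X0 : ℕ, ∀ X : ℕ, X0 ≤ X →
    C * (X : ℝ) ^ 2 ≤ (((Icc 1 X ×ˢ Icc 1 X).filter
      (GN ((3 / 2 - δ) * Real.log (Real.log X)) ((3 / 2 + δ) * Real.log (Real.log X)) X)).card :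
        ℝ) := by
  obtain ⟨C, hC, X0, h⟩ := mainR 0
  refine ⟨C / 2, by positivity, fun δ hδ => ?_⟩
  obtain ⟨X1, h1⟩ := pairs 1 one_ne_zero δ (C / 4) hδ (by positivity)
  obtain ⟨X2, h2⟩ := pairs 17 (by norm_num) δ (C / 4) hδ (by positivity)
  refine ⟨X0 + X1 + X2, fun X hX => ?_⟩
  have g0 := h X (by omega)
  obtain ⟨T1, a1, a2⟩ := h1 X (by omega)
  obtain ⟨T2, b1, b2⟩ := h2 X (by omega)
  obtain ⟨F, hF⟩ : ∃ F, F = (Icc 1 X ×ˢ Icc 1 X).filter (GoodR 0 X) := ⟨_, rfl⟩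
  obtain ⟨F', hF'⟩ : ∃ F', F' = (Icc 1 X ×ˢ Icc 1 X).filter
      (GN ((3 / 2 - δ) * Real.log (Real.log X)) ((3 / 2 + δ) * Real.log (Real.log X)) X) := ⟨_, rfl⟩
  have g0' : C * (X : ℝ) ^ 2 ≤ F.card := by
    rw [hF]
    exact g0
  rw [← hF']
  have hsub : F ⊆ F' ∪ (T1 ∪ T2) := by
    intro t ht
    rw [hF, mem_filter] at ht
    by_cases n1 : t ∈ T1
    · exact mem_union_right _ (mem_union_left _ n1)
    by_cases n2 : t ∈ T2
    · exact mem_union_right _ (mem_union_right _ n2)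
    refine mem_union_left _ ?_
    rw [hF', mem_filter]
    refine ⟨ht.1, ht.2, fun κ hκ i => ?_⟩
    obtain ⟨-, -, -, -, f5, -, -⟩ := factsN ht.1 (goodN_of ht.2)
    rcases hκ with rfl | rfl
    · exact a2 t ht.1 f5 n1 i
    · exact b2 t ht.1 f5 n2 i
  have hc := (card_le_card hsub).trans ((card_union_le _ _).trans
    (Nat.add_le_add_left (card_union_le _ _) _))
  have hc' : (F.card : ℝ) ≤ F'.card + (T1.card + T2.card) := by exact_mod_cast hc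
  linarith

end Pool.Agent.H15SP
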