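import Mathlib
import Pool.Agent.Y667.MT.Rank
import Pool.Agent.TH841.PT.Fam3

/-!
# Elementary facts on the curves with a rational cyclic subgroup of order four

Copied from `Pool.Agent.R421.EK` and `Pool.Agent.R421.ET`.
-/

set_option autoImplicit false
set_option linter.unusedSectionVars false

namespace Pool.Agent.H15SP

open Finset

open Pool.Agent.TH841.PT (EQ)

open Pool.Agent.Y667.MT (GoodR)

/-- the coefficient `A` -/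
def cA (t : ℤ × ℤ) : ℤ := t.2 ^ 2 - 3 * t.1 ^ 2

/-- the coefficient `B` -/
def cB (t : ℤ × ℤ) : ℤ := 2 * t.1 ^ 3 - t.2 ^ 2 * t.1

/-- the height is at most `Y` -/
def Hb (c : ℕ × ℕ) (Y : ℕ) (t : ℤ × ℤ) : Prop :=
  (c.1 : ℤ) * |cA t| ^ 3 ≤ Y ∧ (c.2 : ℤ) * cB t ^ 2 ≤ Y

/-- the constants of the height -/
def Cc (c : ℕ × ℕ) : Prop := 1 ≤ c.1 ∧ c.1 ≤ 4 ∧ 1 ≤ c.2 ∧ c.2 ≤ 27

/-- pairs of bounded height are bounded -/
lemma Hb_bd {c : ℕ × ℕ} (hc : Cc c) {Y T : ℕ} (hT : 1 ≤ T) (hY : Y ≤ T ^ 6) {t : ℤ × ℤ}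
    (h : Hb c Y t) : |t.1| ≤ 2 * T ∧ |t.2| ≤ 4 * T := by
  obtain ⟨h1', h2'⟩ := h
  obtain ⟨c1, -, c2, -⟩ := hc
  have c1' : (1 : ℤ) ≤ c.1 := by exact_mod_cast c1
  have c2' : (1 : ℤ) ≤ c.2 := by exact_mod_cast c2
  have h1 : |cA t| ^ 3 ≤ Y := by
    have : 1 * |cA t| ^ 3 ≤ (c.1 : ℤ) * |cA t| ^ 3 :=
      mul_le_mul_of_nonneg_right c1' (by positivity)
    linarith
  have h2 : cB t ^ 2 ≤ Y := by
    have : 1 * cB t ^ 2 ≤ (c.2 : ℤ) * cB t ^ 2 := mul_le_mul_of_nonneg_right c2' (by positivity)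
    linarith
  have hT' : (1 : ℤ) ≤ T := by exact_mod_cast hT
  have hY' : (Y : ℤ) ≤ (T : ℤ) ^ 6 := by exact_mod_cast hY
  have hA : |cA t| ≤ (T : ℤ) ^ 2 := by
    by_contra hcon
    rw [not_le] at hcon
    have h3 : ((T : ℤ) ^ 2) ^ 3 < |cA t| ^ 3 := pow_lt_pow_left₀ hcon (by positivity) (by norm_num)
    have h4 : ((T : ℤ) ^ 2) ^ 3 = (T : ℤ) ^ 6 := by ring
    have h5 : (0 : ℤ) ≤ (T : ℤ) ^ 6 := by positivity
    linarith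
  have hB : |cB t| ≤ (T : ℤ) ^ 3 := by
    by_contra hcon
    rw [not_le] at hcon
    have h3 : ((T : ℤ) ^ 3) ^ 2 < |cB t| ^ 2 := pow_lt_pow_left₀ hcon (by positivity) (by norm_num)
    rw [sq_abs] at h3
    have h4 : ((T : ℤ) ^ 3) ^ 2 = (T : ℤ) ^ 6 := by ring
    have h5 : (0 : ℤ) ≤ (T : ℤ) ^ 6 := by positivity
    linarith
  have hroot : t.1 ^ 3 = -(cA t * t.1) - cB t := by
    unfold cA cB
    ring
  have he : |t.1| ≤ 2 * T := by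
    by_contra hcon
    rw [not_le] at hcon
    have h3 : |t.1| ^ 3 ≤ |cA t| * |t.1| + |cB t| := by
      rw [← abs_pow, hroot, ← abs_mul]
      have := abs_add_le (-(cA t * t.1)) (-cB t)
      rw [abs_neg, abs_neg] at this
      exact this
    obtain ⟨a, ha⟩ : ∃ a, a = |t.1| := ⟨_, rfl⟩
    rw [← ha] at h3 hcon
    have ha0 : 0 < a := by linarith
    have h4 : |cA t| * a ≤ (T : ℤ) ^ 2 * a := mul_le_mul_of_nonneg_right hA ha0.le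
    have h5 : 4 * (T : ℤ) ^ 2 ≤ a ^ 2 := by
      have : (2 * (T : ℤ)) ^ 2 ≤ a ^ 2 := pow_le_pow_left₀ (by linarith) hcon.le 2
      linarith
    have h6 : 4 * (T : ℤ) ^ 2 * a ≤ a ^ 2 * a := mul_le_mul_of_nonneg_right h5 ha0.le
    have h7 : (T : ℤ) ^ 2 * (2 * T) < (T : ℤ) ^ 2 * a :=
      mul_lt_mul_of_pos_left hcon (by positivity)
    have e1 : a ^ 3 = a ^ 2 * a := by ring
    have e2 : (T : ℤ) ^ 2 * (2 * T) = 2 * (T : ℤ) ^ 3 := by ring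
    have h8 : 0 < (T : ℤ) ^ 3 := by positivity
    linarith
  refine ⟨he, ?_⟩
  apply abs_le_of_sq_le_sq _ (by linarith)
  have h9 : t.2 ^ 2 = cA t + 3 * t.1 ^ 2 := by unfold cA; ring
  have h10 : t.1 ^ 2 ≤ (2 * (T : ℤ)) ^ 2 := by
    rw [← sq_abs]
    exact pow_le_pow_left₀ (abs_nonneg _) he 2
  have h11 := (abs_le.1 hA).2
  have h12 : 0 ≤ (T : ℤ) ^ 2 := by positivity
  nlinarith

/-- the pairs of height at most `Y`, nonsingular curves -/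
def Fht (c : ℕ × ℕ) (Y : ℕ) (t : ℤ × ℤ) : Prop := Hb c Y t ∧ t.2 ≠ 0 ∧ 9 * t.1 ^ 2 ≠ 4 * t.2 ^ 2

/-- upper bound for the number of the pairs -/
lemma fht_up {c : ℕ × ℕ} (hc : Cc c) {Y T : ℕ} (hT : 1 ≤ T) (hY : Y ≤ T ^ 6)
    (K : Finset (ℤ × ℤ)) (hK : ∀ t ∈ K, Fht c Y t) : (K.card : ℝ) ≤ 45 * (T : ℝ) ^ 2 := by
  have hsub : K ⊆ Icc (-(2 * (T : ℤ))) (2 * T) ×ˢ Icc (-(4 * (T : ℤ))) (4 * T) := by
    intro t ht
    obtain ⟨h2, h3⟩ := Hb_bd hc hT hY (hK t ht).1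
    rw [mem_product, mem_Icc, mem_Icc]
    exact ⟨abs_le.1 h2, abs_le.1 h3⟩
  have h1 := card_le_card hsub
  rw [card_product, Int.card_Icc, Int.card_Icc] at h1
  have e1 : (2 * (T : ℤ) + 1 - -(2 * (T : ℤ))).toNat = 4 * T + 1 := by omega
  have e2 : (4 * (T : ℤ) + 1 - -(4 * (T : ℤ))).toNat = 8 * T + 1 := by omega
  rw [e1, e2] at h1
  have h2 : (4 * T + 1) * (8 * T + 1) ≤ 45 * T ^ 2 := by nlinarith
  exact_mod_cast h1.trans h2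

lemma fht_fin {c : ℕ × ℕ} (hc : Cc c) (Y : ℕ) : {t : ℤ × ℤ | Fht c Y t}.Finite := by
  refine Set.Finite.subset (Finset.finite_toSet
    (Icc (-(2 * ((Y + 1 : ℕ) : ℤ))) (2 * ((Y + 1 : ℕ) : ℤ)) ×ˢ
      Icc (-(4 * ((Y + 1 : ℕ) : ℤ))) (4 * ((Y + 1 : ℕ) : ℤ)))) ?_
  intro t ht
  have h1 : Y ≤ (Y + 1) ^ 6 := (Nat.le_succ Y).trans (Nat.le_self_pow (by norm_num) _)
  obtain ⟨h2, h3⟩ := Hb_bd hc (Nat.succ_le_succ (Nat.zero_le Y)) h1 ht.1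
  rw [mem_coe, mem_product, mem_Icc, mem_Icc]
  exact ⟨abs_le.1 h2, abs_le.1 h3⟩

lemma disc_iff (e N : ℤ) : 4 * (N ^ 2 - 3 * e ^ 2) ^ 3 + 27 * (2 * e ^ 3 - N ^ 2 * e) ^ 2 ≠ 0 ↔
    N ≠ 0 ∧ 9 * e ^ 2 ≠ 4 * N ^ 2 := by
  have h : 4 * (N ^ 2 - 3 * e ^ 2) ^ 3 + 27 * (2 * e ^ 3 - N ^ 2 * e) ^ 2 =
      N ^ 4 * (4 * N ^ 2 - 9 * e ^ 2) := by ring
  rw [h, mul_ne_zero_iff, pow_ne_zero_iff (by norm_num), sub_ne_zero]
  exact and_congr Iff.rfl ne_comm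

/-- minimality -/
def Mn (t : ℤ × ℤ) : Prop := ∀ p : ℕ, p.Prime → ¬ ((p : ℤ) ^ 2 ∣ t.1 ∧ (p : ℤ) ^ 2 ∣ t.2)

/-- minimality of the model -/
lemma mn_minimal (t : ℤ × ℤ) : Mn t ↔ ∀ p : ℕ, p.Prime → ¬ ((p : ℤ) ^ 4 ∣ cA t ∧ (p : ℤ) ^ 6 ∣ cB t) := by
  unfold Mn
  refine forall_congr' fun p => forall_congr' fun hp => not_congr ?_
  have hp' : Prime (p : ℤ) := Nat.prime_iff_prime_int.1 hp
  unfold cA cB
  constructor
  · rintro ⟨⟨u, hu⟩, ⟨v, hv⟩⟩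
    rw [hu, hv]
    exact ⟨⟨v ^ 2 - 3 * u ^ 2, by ring⟩, ⟨2 * u ^ 3 - v ^ 2 * u, by ring⟩⟩
  · rintro ⟨h1, h2⟩
    have h3 : (p : ℤ) ^ 4 ∣ t.1 ^ 3 := by
      have e : t.1 ^ 3 = -((2 * t.1 ^ 3 - t.2 ^ 2 * t.1) + (t.2 ^ 2 - 3 * t.1 ^ 2) * t.1) := by ring
      rw [e, dvd_neg]
      refine dvd_add ((pow_dvd_pow _ (by norm_num)).trans h2) (Dvd.dvd.mul_right h1 _)
    have h4 : (p : ℤ) ∣ t.1 := hp'.dvd_of_dvd_pow ((dvd_pow_self _ (by norm_num)).trans h3)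
    obtain ⟨u, hu⟩ := h4
    have h5 : (p : ℤ) ∣ u ^ 3 := by
      have e : t.1 ^ 3 = (p : ℤ) ^ 3 * u ^ 3 := by rw [hu]; ring
      rw [e] at h3
      have e2 : (p : ℤ) ^ 4 = (p : ℤ) ^ 3 * p := by ring
      rw [e2] at h3
      exact (mul_dvd_mul_iff_left (pow_ne_zero 3 hp'.ne_zero)).1 h3
    have h6 : (p : ℤ) ∣ u := hp'.dvd_of_dvd_pow h5
    have h7 : (p : ℤ) ^ 2 ∣ t.1 := by
      rw [hu, pow_two]
      exact mul_dvd_mul_left _ h6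
    refine ⟨h7, ?_⟩
    have h8 : (p : ℤ) ^ 4 ∣ t.2 ^ 2 := by
      have e : t.2 ^ 2 = (t.2 ^ 2 - 3 * t.1 ^ 2) + 3 * t.1 ^ 2 := by ring
      rw [e]
      refine dvd_add h1 (Dvd.dvd.mul_left ?_ _)
      have := pow_dvd_pow_of_dvd h7 2
      rw [← pow_mul] at this
      exact this
    have e3 : (p : ℤ) ^ 4 = ((p : ℤ) ^ 2) ^ 2 := by ring
    rw [e3] at h8
    exact (Int.pow_dvd_pow_iff (by norm_num)).1 h8

/-- a box of the family -/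
lemma hb_box {c : ℕ × ℕ} (hc : Cc c) {Y T X : ℕ} (hX : 14 * X ≤ T - 1) (hY : (T - 1) ^ 6 < Y)
    {e N : ℤ} (he : |e| ≤ 6 * X) (hN : |N| ≤ 6 * X) : Hb c Y (e, N) := by
  have hY' : 5038848 * (X : ℤ) ^ 6 ≤ Y := by
    have e1 : (14 * X) ^ 6 ≤ (T - 1) ^ 6 := Nat.pow_le_pow_left hX 6
    have e2 : (14 * X) ^ 6 = 7529536 * X ^ 6 := by ring
    have e3 : 5038848 * X ^ 6 ≤ Y := by omega
    exact_mod_cast e3
  have hX0 : (0 : ℤ) ≤ X := Int.natCast_nonneg _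
  have he2 : e ^ 2 ≤ 36 * (X : ℤ) ^ 2 := by
    have := pow_le_pow_left₀ (abs_nonneg e) he 2
    rw [sq_abs] at this
    linarith
  have hN2 : N ^ 2 ≤ 36 * (X : ℤ) ^ 2 := by
    have := pow_le_pow_left₀ (abs_nonneg N) hN 2
    rw [sq_abs] at this
    linarith
  have e0 := sq_nonneg e
  have N0 := sq_nonneg N
  constructor
  · have e1 : |cA (e, N)| ≤ 108 * (X : ℤ) ^ 2 := by
      unfold cA
      simp only
      rw [abs_le]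
      constructor <;> linarith
    have e2 : |cA (e, N)| ^ 3 ≤ (108 * (X : ℤ) ^ 2) ^ 3 := pow_le_pow_left₀ (abs_nonneg _) e1 3
    have e3 : (108 * (X : ℤ) ^ 2) ^ 3 = 1259712 * (X : ℤ) ^ 6 := by ring
    have c1' : (c.1 : ℤ) ≤ 4 := by exact_mod_cast hc.2.1
    have e4 : (c.1 : ℤ) * |cA (e, N)| ^ 3 ≤ 4 * |cA (e, N)| ^ 3 :=
      mul_le_mul_of_nonneg_right c1' (by positivity)
    linarith
  · have e1 : |cB (e, N)| ≤ 432 * (X : ℤ) ^ 3 := by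
      unfold cB
      simp only
      have e4 : 2 * e ^ 3 - N ^ 2 * e = e * (2 * e ^ 2 - N ^ 2) := by ring
      rw [e4, abs_mul]
      have e5 : |2 * e ^ 2 - N ^ 2| ≤ 72 * (X : ℤ) ^ 2 := by
        rw [abs_le]
        constructor <;> linarith
      calc |e| * |2 * e ^ 2 - N ^ 2| ≤ (6 * X) * (72 * (X : ℤ) ^ 2) :=
            mul_le_mul he e5 (abs_nonneg _) (by linarith)
        _ = _ := by ring
    have e2 : |cB (e, N)| ^ 2 ≤ (432 * (X : ℤ) ^ 3) ^ 2 := pow_le_pow_left₀ (abs_nonneg _) e1 2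
    rw [sq_abs] at e2
    have e3 : (432 * (X : ℤ) ^ 3) ^ 2 = 186624 * (X : ℤ) ^ 6 := by ring
    have c2' : (c.2 : ℤ) ≤ 27 := by exact_mod_cast hc.2.2.2
    have e4 : (c.2 : ℤ) * cB (e, N) ^ 2 ≤ 27 * cB (e, N) ^ 2 :=
      mul_le_mul_of_nonneg_right c2' (by positivity)
    linarith

/-- the abscissa of the point of order two -/
def e0 (κ : ℤ) (t : ℕ × ℕ) : ℤ × ℤ := (κ * (((t.1 : ℤ) + t.2) / 6), κ * (((t.1 : ℤ) - t.2) / 4))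

lemma e0_factsR {r X : ℕ} {t : ℕ × ℕ} (ht1 : t ∈ Icc 1 X ×ˢ Icc 1 X) (ht : GoodR r X t) {κ : ℤ}
    (hκ : κ = 1 ∨ κ = 17) :
    3 * (e0 κ t).1 + 2 * (e0 κ t).2 = κ * t.1 ∧ 3 * (e0 κ t).1 - 2 * (e0 κ t).2 = κ * t.2 ∧
    |(e0 κ t).1| ≤ 6 * X ∧ |(e0 κ t).2| ≤ 6 * X ∧ (e0 κ t).2 ≠ 0 ∧
      9 * (e0 κ t).1 ^ 2 ≠ 4 * (e0 κ t).2 ^ 2 ∧ Mn (e0 κ t) := by
  rw [mem_product, mem_Icc, mem_Icc] at ht1
  obtain ⟨g1, g2⟩ := ht1
  obtain ⟨h1, h2, h3, h4, h5, h6, h7, s, q0, q1, -, -, -, q2, q3, q4, -⟩ := ht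
  have q2' : (t.1 : ℤ) - t.2 = 32 * s 2 := by rw [← q0, ← q1]; exact q2
  have u1 : 6 * (((t.1 : ℤ) + t.2) / 6) = (t.1 : ℤ) + t.2 := by omega
  have u2 : 4 * (((t.1 : ℤ) - t.2) / 4) = (t.1 : ℤ) - t.2 := by omega
  obtain ⟨e, he⟩ : ∃ e, e = ((t.1 : ℤ) + t.2) / 6 := ⟨_, rfl⟩
  obtain ⟨N, hN⟩ : ∃ N, N = ((t.1 : ℤ) - t.2) / 4 := ⟨_, rfl⟩
  rw [← he] at u1
  rw [← hN] at u2
  unfold e0
  simp only
  rw [← he, ← hN]
  have v1 : 3 * (κ * e) + 2 * (κ * N) = κ * t.1 := by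
    have : 3 * e + 2 * N = t.1 := by linarith
    rw [← this]
    ring
  have v2 : 3 * (κ * e) - 2 * (κ * N) = κ * t.2 := by
    have : 3 * e - 2 * N = t.2 := by linarith
    rw [← this]
    ring
  have hκ0 : κ ≠ 0 := by rcases hκ with h | h <;> rw [h] <;> norm_num
  have hab : (t.1 : ℤ) * t.2 ≠ 0 := by
    have : 0 < (t.1 : ℤ) * t.2 := by
      have a1 : (0 : ℤ) < t.1 := by omega
      have a2 : (0 : ℤ) < t.2 := by omega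
      positivity
    exact this.ne'
  refine ⟨v1, v2, ?_, ?_, ?_, ?_, ?_⟩
  · rw [abs_le]
    rcases hκ with h | h <;> rw [h] <;> constructor <;> omega
  · rw [abs_le]
    rcases hκ with h | h <;> rw [h] <;> constructor <;> omega
  · refine mul_ne_zero hκ0 fun h => ?_
    rw [h] at u2
    omega
  · intro h
    have e1 : 9 * (κ * e) ^ 2 - 4 * (κ * N) ^ 2 = (3 * (κ * e) + 2 * (κ * N)) *
      (3 * (κ * e) - 2 * (κ * N)) := by ring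
    rw [v1, v2, h, sub_self] at e1
    have e2 : κ * (t.1 : ℤ) * (κ * t.2) = κ ^ 2 * (t.1 * t.2) := by ring
    rw [e2] at e1
    exact mul_ne_zero (pow_ne_zero 2 hκ0) hab e1.symm
  · intro p hp hd
    obtain ⟨d1, d2⟩ := hd
    simp only at d1 d2
    have w1 : (p : ℤ) ^ 2 ∣ κ * t.1 := by
      rw [← v1]
      exact dvd_add (Dvd.dvd.mul_left d1 _) (Dvd.dvd.mul_left d2 _)
    have w2 : (p : ℤ) ^ 2 ∣ κ * t.2 := by
      rw [← v2]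
      exact dvd_sub (Dvd.dvd.mul_left d1 _) (Dvd.dvd.mul_left d2 _)
    have hc : IsCoprime (t.1 : ℤ) (t.2 : ℤ) := Nat.isCoprime_iff_coprime.2 h7
    obtain ⟨u, v, huv⟩ := hc
    have w3 : (p : ℤ) ^ 2 ∣ κ := by
      have : κ = u * (κ * t.1) + v * (κ * t.2) := by
        calc κ = κ * (u * t.1 + v * t.2) := by rw [huv, mul_one]
          _ = _ := by ring
      rw [this]
      exact dvd_add (Dvd.dvd.mul_left w1 _) (Dvd.dvd.mul_left w2 _)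
    have w4 : (p ^ 2 : ℕ) ∣ κ.natAbs := by
      have := Int.natAbs_dvd_natAbs.2 w3
      rw [Int.natAbs_pow, Int.natAbs_natCast] at this
      exact this
    have hp2 := hp.two_le
    rcases hκ with h | h
    · rw [h] at w4
      have h5 : p ^ 2 ≤ 1 := Nat.le_of_dvd (by norm_num) w4
      have h6 : 2 ^ 2 ≤ p ^ 2 := Nat.pow_le_pow_left hp2 2
      omega
    · rw [h] at w4
      have h17 : (17 : ℤ).natAbs = 17 := rfl
      rw [h17] at w4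
      have h5 := Nat.le_of_dvd (by norm_num) w4
      have h6 : p ≤ 4 := by
        by_contra hcon
        have h7 : 5 ^ 2 ≤ p ^ 2 := Nat.pow_le_pow_left (by omega) 2
        omega
      interval_cases p <;> omega

lemma EQ_disc {A B : ℤ} (hA : A ≠ 0) (hB : B ≠ 0) (hAB : A ≠ B) : (EQ A B).Δ ≠ 0 := by
  have e : (EQ A B).Δ = 16 * ((A : ℚ) * B * (A - B)) ^ 2 := by
    unfold WeierstrassCurve.Δ WeierstrassCurve.b₂ WeierstrassCurve.b₄ WeierstrassCurve.b₆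
      WeierstrassCurve.b₈ EQ
    ring
  rw [e]
  have hA' : (A : ℚ) ≠ 0 := by exact_mod_cast hA
  have hB' : (B : ℚ) ≠ 0 := by exact_mod_cast hB
  have hAB' : (A : ℚ) - B ≠ 0 := sub_ne_zero.2 (by exact_mod_cast hAB)
  exact mul_ne_zero (by norm_num) (pow_ne_zero 2 (mul_ne_zero (mul_ne_zero hA' hB') hAB'))

/-- the scale -/
lemma tsc (W Y : ℕ) (hY : W ^ 6 ≤ Y) : ∃ T : ℕ, W ≤ T ∧ Y ≤ T ^ 6 ∧ (T = 0 ∨ (T - 1) ^ 6 < Y) := by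
  have hex : ∃ T, Y ≤ T ^ 6 := ⟨Y, Nat.le_self_pow (by norm_num) Y⟩
  obtain ⟨T, hT⟩ : ∃ T, T = Nat.find hex := ⟨_, rfl⟩
  have h1 : Y ≤ T ^ 6 := by rw [hT]; exact Nat.find_spec hex
  refine ⟨T, ?_, h1, ?_⟩
  · by_contra hcon
    rw [not_le] at hcon
    have := Nat.pow_lt_pow_left hcon (show 6 ≠ 0 by norm_num)
    omega
  · rcases Nat.eq_zero_or_pos T with h0 | h0
    · exact Or.inl h0
    · right
      have h3 : T - 1 < Nat.find hex := by omega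
      have := Nat.find_min hex h3
      omega

end Pool.Agent.H15SP
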