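import Pool.Agent.X257.PS.Inv

/-!
# Equations `y² = x³ + a x² + b x` of a curve and of its 2-isogenous curves
-/

set_option autoImplicit false

namespace Pool.Agent.H15SP

open Pool.Agent.TH841.NO Pool.Agent.X257.PS Polynomial

/-- the coefficients `-(A' + B')`, `A' B'` with integers `A'`, `B'` -/
lemma rat_int {A B : ℤ} {v : ℚ} (hv : v ≠ 0) {a b : ℤ} (ha : (a : ℚ) = -(A + B) * v ^ 2)
    (hb : (b : ℚ) = A * B * v ^ 4) : ∃ A' B' m n : ℤ, m ≠ 0 ∧ n ≠ 0 ∧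
      A' * n ^ 2 = A * m ^ 2 ∧ B' * n ^ 2 = B * m ^ 2 ∧ a = -(A' + B') ∧ b = A' * B' := by
  obtain ⟨A', hA'⟩ := int_root (x := A * v ^ 2) (a := a) (b := b) (by rw [ha, hb]; ring)
  obtain ⟨B', hB'⟩ := int_root (x := B * v ^ 2) (a := a) (b := b) (by rw [ha, hb]; ring)
  have hn : (v.den : ℤ) ≠ 0 := by exact_mod_cast v.den_ne_zero
  have hm : v.num ≠ 0 := Rat.num_ne_zero.2 hv
  have hnQ : (v.den : ℚ) ≠ 0 := by exact_mod_cast v.den_ne_zero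
  have hvn : v * v.den = v.num := Rat.mul_den_eq_num v
  refine ⟨A', B', v.num, v.den, hm, hn, ?_, ?_, ?_, ?_⟩
  · have : (A' : ℚ) * (v.den : ℚ) ^ 2 = A * (v.num : ℚ) ^ 2 := by
      rw [← hA', ← hvn]; ring
    exact_mod_cast this
  · have : (B' : ℚ) * (v.den : ℚ) ^ 2 = B * (v.num : ℚ) ^ 2 := by
      rw [← hB', ← hvn]; ring
    exact_mod_cast this
  · have : (a : ℚ) = -(A' + B') := by rw [ha, ← hA', ← hB']; ring
    exact_mod_cast this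
  · have : (b : ℚ) = A' * B' := by rw [hb, ← hA', ← hB']; ring
    exact_mod_cast this

/-- the group of quartics does not depend on the scaling -/
lemma sq_rat {A B : ℤ} {v : ℚ} (hv : v ≠ 0) {a b : ℤ} (ha : (a : ℚ) = -(A + B) * v ^ 2)
    (hb : (b : ℚ) = A * B * v ^ 4) (A0 : A ≠ 0) (B0 : B ≠ 0) (AB : A ≠ B) :
    SQ a b = SQ (-(A + B)) (A * B) := by
  obtain ⟨A', B', m, n, hm, hn, e1, e2, e3, e4⟩ := rat_int hv ha hb
  have hm2 : m ^ 2 ≠ 0 := pow_ne_zero 2 hm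
  have hn2 : n ^ 2 ≠ 0 := pow_ne_zero 2 hn
  have A0' : A' ≠ 0 := by
    rintro rfl
    exact mul_ne_zero A0 hm2 (by rw [← e1, zero_mul])
  have B0' : B' ≠ 0 := by
    rintro rfl
    exact mul_ne_zero B0 hm2 (by rw [← e2, zero_mul])
  have AB' : A' ≠ B' := by
    rintro rfl
    exact AB (mul_right_cancel₀ hm2 (e1.symm.trans e2))
  rw [e3, e4]
  exact sq_inv hm hn e1 e2 A0 B0 AB A0' B0' AB'

open WeierstrassCurve in
/-- the change of variables to an equation `y² = x³ + a x² + b x` -/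
theorem vc_root {P Q a b : ℤ} (C : VariableChange ℚ)
    (hC : C • (⟨0, 0, 0, (P : ℚ), (Q : ℚ)⟩ : WeierstrassCurve ℚ) = ⟨0, a, 0, b, 0⟩) :
    ∃ r v : ℚ, v ≠ 0 ∧ r ^ 3 + P * r + Q = 0 ∧ (a : ℚ) = 3 * r * v ^ 2 ∧
      (b : ℚ) = (P + 3 * r ^ 2) * v ^ 4 ∧
      Nonempty ((⟨0, 0, 0, (P : ℚ), (Q : ℚ)⟩ : WeierstrassCurve ℚ).toAffine.Point ≃+
        (⟨0, a, 0, b, 0⟩ : WeierstrassCurve ℚ).toAffine.Point) := by
  obtain ⟨u, hu⟩ : ∃ u : ℚ, u = (C.u : ℚ) := ⟨_, rfl⟩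
  have hu0 : u ≠ 0 := by rw [hu]; exact C.u.ne_zero
  have hui : ((C.u⁻¹ : ℚˣ) : ℚ) = u⁻¹ := by rw [hu, Units.val_inv_eq_inv_val]
  have a1 := congrArg WeierstrassCurve.a₁ hC
  have a2 := congrArg WeierstrassCurve.a₂ hC
  have a3 := congrArg WeierstrassCurve.a₃ hC
  have a4 := congrArg WeierstrassCurve.a₄ hC
  have a6 := congrArg WeierstrassCurve.a₆ hC
  rw [variableChange_a₁] at a1
  rw [variableChange_a₂] at a2
  rw [variableChange_a₃] at a3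
  rw [variableChange_a₄] at a4
  rw [variableChange_a₆] at a6
  simp only [hui] at a1 a2 a3 a4 a6
  have hui0 : u⁻¹ ≠ 0 := inv_ne_zero hu0
  have hs : C.s = 0 := by
    have := (mul_eq_zero.1 a1).resolve_left hui0
    linarith
  have ht : C.t = 0 := by
    have := (mul_eq_zero.1 a3).resolve_left (pow_ne_zero 3 hui0)
    linarith
  rw [hs] at a2 a4
  rw [ht] at a4 a6
  obtain ⟨r, hr⟩ : ∃ r : ℚ, r = C.r := ⟨_, rfl⟩
  rw [← hr] at a2 a4 a6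
  have hroot := (mul_eq_zero.1 a6).resolve_left (pow_ne_zero 6 hui0)
  have ha : (a : ℚ) = 3 * r * u⁻¹ ^ 2 := by rw [← a2]; ring
  have hb : (b : ℚ) = (P + 3 * r ^ 2) * u⁻¹ ^ 4 := by rw [← a4]; ring
  refine ⟨r, u⁻¹, hui0, by linear_combination hroot, ha, hb, ?_⟩
  have hi := Pool.Agent.W261.RT.iso 0 (P : ℚ) (Q : ℚ) r u hu0
  have e : (⟨0, (0 + 3 * r) / u ^ 2, 0, ((P : ℚ) + 2 * r * 0 + 3 * r ^ 2) /
      u ^ 4, ((Q : ℚ) + r * (P : ℚ) + r ^ 2 * 0 + r ^ 3) / u ^ 6⟩ : WeierstrassCurve ℚ) =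
      ⟨0, a, 0, b, 0⟩ := by
    congr 1
    · rw [ha]; field_simp; ring
    · rw [hb]
      field_simp
      ring
    · rw [div_eq_zero_iff]
      left
      linear_combination hroot
  rw [e] at hi
  exact hi

/-- the three pairs -/
def tri3 (i : Fin 3) (A B : ℤ) : ℤ × ℤ := ![(A, B), (-A, B - A), (-B, A - B)] i

open WeierstrassCurve in
/-- all the equations of the curve with the roots `-k`, `A - k`, `B - k` -/
theorem eqn_tri {A B k : ℤ} (hk : A + B = 3 * k) {a b : ℤ} (C : VariableChange ℚ)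
    (hC : C • (⟨0, 0, 0, ((A * B - 3 * k ^ 2 : ℤ) : ℚ),
      ((k * (A - k) * (B - k) : ℤ) : ℚ)⟩ : WeierstrassCurve ℚ) = ⟨0, a, 0, b, 0⟩) :
    ∃ (i : Fin 3) (v : ℚ), v ≠ 0 ∧
      (a : ℚ) = -(((tri3 i A B).1 : ℚ) + ((tri3 i A B).2 : ℚ)) * v ^ 2 ∧
      (b : ℚ) = ((tri3 i A B).1 : ℚ) * ((tri3 i A B).2 : ℚ) * v ^ 4 := by
  obtain ⟨r, v, hv, hroot, ha, hb, -⟩ := vc_root C hC
  have hkQ : (A : ℚ) + B = 3 * k := by exact_mod_cast hk
  push_cast at hroot hb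
  have hfac : (r + k) * ((r - (A - k)) * (r - (B - k))) = 0 := by
    linear_combination hroot - (r ^ 2 + 2 * k * r) * hkQ
  rcases mul_eq_zero.1 hfac with h | h
  · have hr1 : r = -k := by linarith
    refine ⟨0, v, hv, ?_, ?_⟩
    · change (a : ℚ) = -((A : ℚ) + (B : ℚ)) * v ^ 2
      rw [ha, hr1]
      linear_combination (v ^ 2) * hkQ
    · change (b : ℚ) = (A : ℚ) * (B : ℚ) * v ^ 4
      rw [hb, hr1]; ring
  · rcases mul_eq_zero.1 h with h | h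
    · have hr1 : r = A - k := by linarith
      refine ⟨1, v, hv, ?_, ?_⟩
      · change (a : ℚ) = -(((-A : ℤ) : ℚ) + ((B - A : ℤ) : ℚ)) * v ^ 2
        rw [ha, hr1]
        push_cast
        linear_combination (v ^ 2) * hkQ
      · change (b : ℚ) = ((-A : ℤ) : ℚ) * ((B - A : ℤ) : ℚ) * v ^ 4
        rw [hb, hr1]
        push_cast
        linear_combination (2 * A * v ^ 4) * hkQ
    · have hr1 : r = B - k := by linarith
      refine ⟨2, v, hv, ?_, ?_⟩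
      · change (a : ℚ) = -(((-B : ℤ) : ℚ) + ((A - B : ℤ) : ℚ)) * v ^ 2
        rw [ha, hr1]
        push_cast
        linear_combination (v ^ 2) * hkQ
      · change (b : ℚ) = ((-B : ℤ) : ℚ) * ((A - B : ℤ) : ℚ) * v ^ 4
        rw [hb, hr1]
        push_cast
        linear_combination (2 * B * v ^ 4) * hkQ

/-- the quartics after the scaling by two -/
lemma sq_four {a b : ℤ} : SQ a b ⊆ SQ (-2 * (-2 * a)) ((-2 * a) ^ 2 - 4 * (a ^ 2 - 4 * b)) := by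
  have e1 : -2 * (-2 * a) = 4 * a := by ring
  have e2 : (-2 * a) ^ 2 - 4 * (a ^ 2 - 4 * b) = 16 * b := by ring
  rw [e1, e2]
  rintro d ⟨hs, hd, hr, hp⟩
  have hd0 : d ≠ 0 := hs.ne_zero
  have q : ∀ (K : Type) [Field K] [CharZero K], Qu K a b d → Qu K (4 * a) (16 * b) d := by
    intro K _ _ h
    obtain ⟨N, M, e, h0, h1⟩ := h
    refine ⟨4 * N, 2 * M, e, h0.imp (fun h => mul_ne_zero two_ne_zero h) id, ?_⟩
    obtain ⟨b', rfl⟩ := hd
    have e3 : 16 * (d * b') / d = 16 * b' := by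
      rw [show 16 * (d * b') = d * (16 * b') by ring, Int.mul_ediv_cancel_left _ hd0]
    rw [Int.mul_ediv_cancel_left _ hd0] at h1
    rw [e3]
    push_cast
    linear_combination 16 * h1
  exact ⟨hs, dvd_mul_of_dvd_right hd 16, q ℝ hr, fun p _ => q ℚ_[p] (hp p)⟩

/-- the isogenous equation: `f₁ = 0`, `f₂` even -/
theorem gd_dual {A B : ℤ} {v : ℚ} (hv : v ≠ 0) {a b : ℤ} (ha : (a : ℚ) * 2 = (A + B) * v ^ 2)
    (hb : (b : ℚ) * 16 = (A - B) ^ 2 * v ^ 4) (A0 : A ≠ 0) (B0 : B ≠ 0) (AB : A ≠ B) (h : GE A B) :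
    SQ a b ⊆ {1} ∧ Even (Nat.log 2 (SQ (-2 * a) (a ^ 2 - 4 * b)).ncard) ∧
      SQ (-2 * a) (a ^ 2 - 4 * b) = SQ (-(A + B)) (A * B) := by
  have e1 : ((-2 * a : ℤ) : ℚ) = -(A + B) * v ^ 2 := by
    push_cast
    linear_combination (-1) * ha
  have e2 : ((a ^ 2 - 4 * b : ℤ) : ℚ) = A * B * v ^ 4 := by
    push_cast
    have h4 : (4 : ℚ) * (a ^ 2 - 4 * b) = 4 * (A * B * v ^ 4) := by
      have h5 : ((a : ℚ) * 2) ^ 2 = ((A + B) * v ^ 2) ^ 2 := by rw [ha]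
      linear_combination h5 - hb
    linarith
  obtain ⟨g1, g2⟩ := gd_rat hv e1 e2 A0 B0 AB h
  exact ⟨sq_four.trans g1, g2, sq_rat hv e1 e2 A0 B0 AB⟩

end Pool.Agent.H15SP
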