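import Pool.Agent.H15SP.Full

/-!
# The curves with a rational cyclic subgroup of order four
-/

set_option autoImplicit false
set_option linter.unusedSectionVars false

namespace Pool.Agent.H15SP

open WeierstrassCurve Finset

open Pool.Agent.TH841.SH.D (rk)

open Pool.Agent.TH841.LS (WI)

open Pool.Agent.TH841.PT (EQ)

open Pool.Agent.TH841.NO (SQ fo)

open Pool.Agent.Y676.IS (tri)

open Pool.Agent.X257.PS Pool.Agent.Y667.MT

/-- the curves with a cyclic subgroup of order four -/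
def UZ (lo hi : ℝ) (t : ℤ × ℤ) : Prop := LZ lo hi (cA t) (cB t)

theorem uz_of {t : ℤ × ℤ} (h : GP (3 * t.1 + 2 * t.2) (3 * t.1 - 2 * t.2)) {lo hi : ℝ}
    (hn : ∀ i, Nr lo hi (tri i (3 * t.1 + 2 * t.2) (3 * t.1 - 2 * t.2))) : UZ lo hi t := by
  obtain ⟨e, N⟩ := t
  simp only at h hn
  refine ⟨⟨3 * e, N ^ 2, ⟨1, (e : ℚ), 0, 0⟩, ?_⟩, fun a b C hC q hq => ?_⟩
  · apply WeierstrassCurve.ext
    · rw [variableChange_a₁]; simp
    · rw [variableChange_a₂]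
      simp only [Units.val_one, inv_one]
      push_cast; ring
    · rw [variableChange_a₃]; simp
    · rw [variableChange_a₄]
      simp only [Units.val_one, inv_one, cA]
      push_cast; ring
    · rw [variableChange_a₆]
      simp only [Units.val_one, inv_one, cA, cB]
      push_cast; ring
  obtain ⟨r, v, hv, hroot, ha, hb, -⟩ := vc_root C hC
  unfold cA at hb
  unfold cA cB at hroot
  simp only at hb hroot
  push_cast at hroot hb
  have hfac : (r - e) * (r ^ 2 + e * r + (N ^ 2 - 2 * e ^ 2)) = 0 := by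
    linear_combination hroot
  have hre : r = e := by
    rcases mul_eq_zero.1 hfac with h0 | h0
    · linarith
    · exfalso
      apply h.nsq 0
      change IsSquare ((3 * e + 2 * N) * (3 * e - 2 * N))
      rw [← Rat.isSquare_intCast_iff]
      refine ⟨2 * r + e, ?_⟩
      push_cast
      linear_combination (-4) * h0
  rw [hre] at ha hb
  refine ok_of h hn (cl_all h.nsq (Or.inr ⟨0, v / 2, div_ne_zero hv two_ne_zero, ?_, ?_⟩) hq)
  · change (a : ℚ) = 2 * (((3 * e + 2 * N : ℤ) : ℚ) + ((3 * e - 2 * N : ℤ) : ℚ)) * (v / 2) ^ 2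
    push_cast
    rw [ha]; ring
  · change (b : ℚ) = (((3 * e + 2 * N : ℤ) : ℚ) - ((3 * e - 2 * N : ℤ) : ℚ)) ^ 2 * (v / 2) ^ 4
    push_cast
    rw [hb]; ring

open Classical in
/-- **a positive proportion of the curves of the family** -/
theorem four : ∃ c : ℝ, 0 < c ∧ ∀ δ : ℝ, 0 < δ → ∃ Y0 : ℕ, ∀ Y : ℕ, Y0 ≤ Y →
    ∀ K Z : Finset (ℤ × ℤ), (∀ t, t ∈ K ↔ Fht (4, 27) Y t ∧ Mn t) →
    (∀ t, t ∈ Z ↔ t ∈ K ∧ UZ (lo δ Y) (hi δ Y) t) → c * (K.card : ℝ) ≤ Z.card := by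
  obtain ⟨C, hC, hmain0⟩ := mainN
  have hc : Cc (4, 27) := ⟨by norm_num, le_rfl, by norm_num, le_rfl⟩
  refine ⟨C / 70560, by positivity, fun δ hδ => ?_⟩
  obtain ⟨X0', h⟩ := hmain0 (δ / 2) (by positivity)
  obtain ⟨M, hM⟩ := loglog δ hδ
  obtain ⟨X0, hX00⟩ : ∃ X0, X0 = X0' + M + 1 := ⟨_, rfl⟩
  refine ⟨(14 * X0 + 30) ^ 6, fun Y hY K Z hK hZ => ?_⟩
  obtain ⟨T, hT, s4, s5'⟩ := tsc (14 * X0 + 30) Y hY
  have s5 : (T - 1) ^ 6 < Y := s5'.resolve_left (by omega)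
  obtain ⟨X, hX⟩ : ∃ X, X = (T - 1) / 14 := ⟨_, rfl⟩
  have hX1 : 14 * X ≤ T - 1 := by omega
  have hX2 : X0 ≤ X := by omega
  have hX3 : T ≤ 28 * X := by omega
  have hXY : X ≤ Y := by
    have h1 : T - 1 ≤ (T - 1) ^ 6 := Nat.le_self_pow (by norm_num) _
    omega
  have hYX : Y ≤ (100 * X) ^ 6 := s4.trans (Nat.pow_le_pow_left (by omega) 6)
  obtain ⟨l1, l2⟩ := hM X Y (by omega) hXY hYX
  have hmain := h X (by omega)
  obtain ⟨P, hP⟩ : ∃ P : ℕ × ℕ → Prop, P = GN ((3 / 2 - δ / 2) * Real.log (Real.log X))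
      ((3 / 2 + δ / 2) * Real.log (Real.log X)) X := ⟨_, rfl⟩
  obtain ⟨G, hG⟩ : ∃ G, G = (Icc 1 X ×ˢ Icc 1 X).filter P := ⟨_, rfl⟩
  have hmain' : C * (X : ℝ) ^ 2 ≤ G.card := by
    rw [hG, hP]
    exact hmain
  have hmem : ∀ t ∈ G, t ∈ Icc 1 X ×ˢ Icc 1 X ∧ GoodR 0 X t ∧ ∀ κ : ℤ, κ = 1 ∨ κ = 17 →
      ∀ i, Nr (lo δ Y) (hi δ Y) (tri i (κ * (t.1 : ℤ)) (κ * (t.2 : ℤ))) := by
    intro t ht
    rw [hG, mem_filter, hP] at ht
    exact ⟨ht.1, ht.2.1, fun κ hκ i => (ht.2.2 κ hκ i).mono l1 l2⟩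
  have hinj : ∀ κ : ℤ, κ = 1 ∨ κ = 17 → ∀ S ⊆ G,
      (∀ t ∈ S, UZ (lo δ Y) (hi δ Y) (e0 κ t)) → S.card ≤ Z.card := by
    intro κ hκ S hS h4
    refine card_le_card_of_injOn (e0 κ) (fun t ht => ?_) (fun t ht t' ht' htt => ?_)
    · have k1 := hmem t (hS ht)
      obtain ⟨f1, f2, f3, f4, f5, f6, f7⟩ := e0_factsR k1.1 k1.2.1 hκ
      rw [mem_coe, hZ, hK]
      exact ⟨⟨⟨hb_box hc hX1 s5 f3 f4, f5, f6⟩, f7⟩, h4 t ht⟩
    · have k1 := hmem t (hS ht)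
      have k1' := hmem t' (hS ht')
      obtain ⟨f1, f2, -⟩ := e0_factsR k1.1 k1.2.1 hκ
      obtain ⟨f1', f2', -⟩ := e0_factsR k1'.1 k1'.2.1 hκ
      rw [htt] at f1 f2
      have hκ0 : κ ≠ 0 := by rcases hκ with h | h <;> rw [h] <;> norm_num
      have g1 : (t.1 : ℤ) = t'.1 := mul_left_cancel₀ hκ0 (f1.symm.trans f1')
      have g2 : (t.2 : ℤ) = t'.2 := mul_left_cancel₀ hκ0 (f2.symm.trans f2')
      exact Prod.ext (by exact_mod_cast g1) (by exact_mod_cast g2)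
  have h1 := hinj 1 (Or.inl rfl) (G.filter (fun t => UZ (lo δ Y) (hi δ Y) (e0 1 t)))
    (filter_subset _ _) (fun t ht => (mem_filter.1 ht).2)
  have h2 := hinj 17 (Or.inr rfl) (G.filter (fun t => UZ (lo δ Y) (hi δ Y) (e0 17 t)))
    (filter_subset _ _) (fun t ht => (mem_filter.1 ht).2)
  have h3 : G ⊆ G.filter (fun t => UZ (lo δ Y) (hi δ Y) (e0 1 t)) ∪
      G.filter (fun t => UZ (lo δ Y) (hi δ Y) (e0 17 t)) := by
    intro t ht
    obtain ⟨q1, q2, q3⟩ := hmem t ht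
    rw [mem_union, mem_filter, mem_filter]
    rcases gp_pair q1 q2 with h | h
    · left
      obtain ⟨f1, f2, -⟩ := e0_factsR q1 q2 (κ := 1) (Or.inl rfl)
      refine ⟨ht, uz_of ?_ ?_⟩
      · rw [f1, f2]; exact h
      · rw [f1, f2]; exact q3 1 (Or.inl rfl)
    · right
      obtain ⟨f1, f2, -⟩ := e0_factsR q1 q2 (κ := 17) (Or.inr rfl)
      refine ⟨ht, uz_of ?_ ?_⟩
      · rw [f1, f2]; exact h
      · rw [f1, f2]; exact q3 17 (Or.inr rfl)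
  have h4 : (G.card : ℝ) ≤ 2 * Z.card := by
    have := (card_le_card h3).trans (card_union_le _ _)
    have h5 : G.card ≤ 2 * Z.card := by omega
    exact_mod_cast h5
  have hup : (K.card : ℝ) ≤ 45 * (T : ℝ) ^ 2 := fht_up hc (by omega) s4 K (fun t ht => ((hK t).1 ht).1)
  have h6 : (T : ℝ) ≤ 28 * X := by exact_mod_cast hX3
  have h7 : (T : ℝ) ^ 2 ≤ (28 * X) ^ 2 := pow_le_pow_left₀ (Nat.cast_nonneg _) h6 2
  have h8 : (K.card : ℝ) ≤ 35280 * (X : ℝ) ^ 2 := by linarith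
  calc C / 70560 * (K.card : ℝ) ≤ C / 70560 * (35280 * (X : ℝ) ^ 2) :=
        mul_le_mul_of_nonneg_left h8 (by positivity)
    _ = C * (X : ℝ) ^ 2 / 2 := by ring
    _ ≤ G.card / 2 := by linarith
    _ ≤ _ := by linarith

end Pool.Agent.H15SP
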