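import Pool.Agent.H15SP.Cls

/-!
# The curves with full rational 2-torsion
-/

set_option autoImplicit false
set_option linter.unusedSectionVars false

namespace Pool.Agent.H15SP

open WeierstrassCurve Finset

open Pool.Agent.TH841.SH.D (rk)

open Pool.Agent.TH841.LS (WI big_loglog)

open Pool.Agent.TH841.PT (EQ)

open Pool.Agent.TH841.NO (SQ fo)

open Pool.Agent.Y676.IS (tri)

open Pool.Agent.X257.PS Pool.Agent.Y285.RP Pool.Agent.Y667.RP Pool.Agent.Y667.PA Pool.Agent.Y738.MT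
  Pool.Agent.W307.RS Pool.Agent.W307.RT Pool.Agent.Y667.MT

/-- the lower bound -/
noncomputable def lo (δ : ℝ) (H : ℕ) : ℝ := (3 / 2 - δ) * Real.log (Real.log H) + 2

/-- the upper bound -/
noncomputable def hi (δ : ℝ) (H : ℕ) : ℝ := (3 / 2 + δ) * Real.log (Real.log H) + 2

lemma loglog (δ : ℝ) (hδ : 0 < δ) : ∃ M : ℕ, ∀ X H : ℕ, M ≤ X → X ≤ H → H ≤ (100 * X) ^ 6 →
    lo δ H ≤ (3 / 2 - δ / 2) * Real.log (Real.log X) ∧
    (3 / 2 + δ / 2) * Real.log (Real.log X) ≤ hi δ H := by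
  obtain ⟨M, hM⟩ := big_loglog (δ / 2) 10 (by positivity)
  refine ⟨M + 100, fun X H hX h1 h2 => ?_⟩
  have h3 := hM X (by omega)
  have hX100 : 100 ≤ X := by omega
  have hXr : (100 : ℝ) ≤ X := by exact_mod_cast hX100
  have hHr : (X : ℝ) ≤ H := by exact_mod_cast h1
  have hH2 : (H : ℝ) ≤ (X : ℝ) ^ 12 := by
    have h4 : 100 * X ≤ X ^ 2 := by nlinarith
    have h5 : H ≤ X ^ 12 := h2.trans (by
      calc (100 * X) ^ 6 ≤ (X ^ 2) ^ 6 := Nat.pow_le_pow_left h4 6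
        _ = X ^ 12 := by ring)
    exact_mod_cast h5
  have lX : 1 < Real.log X := by
    rw [Real.lt_log_iff_exp_lt (by linarith)]
    have := Real.exp_one_lt_d9
    linarith
  have l1 : Real.log X ≤ Real.log H := Real.log_le_log (by linarith) hHr
  have l2 : Real.log H ≤ 12 * Real.log X := by
    have h6 := Real.log_le_log (by linarith) hH2
    rw [Real.log_pow] at h6
    push_cast at h6
    exact h6
  have m0 : 0 ≤ Real.log (Real.log X) := Real.log_nonneg lX.le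
  have m1 : Real.log (Real.log X) ≤ Real.log (Real.log H) := Real.log_le_log (by linarith) l1
  have m2 : Real.log (Real.log H) ≤ Real.log 12 + Real.log (Real.log X) := by
    rw [← Real.log_mul (by norm_num) (by linarith)]
    exact Real.log_le_log (by linarith) l2
  have m3 : Real.log 12 ≤ 3 := by
    have h7 : Real.log 12 ≤ Real.log ((2 : ℝ) ^ 4) :=
      Real.log_le_log (by norm_num) (by norm_num)
    rw [Real.log_pow] at h7
    have h8 := Real.log_two_lt_d9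
    push_cast at h7
    linarith
  unfold lo hi
  generalize Real.log (Real.log X) = x at m0 m1 m2 h3 ⊢
  generalize Real.log (Real.log H) = y at m1 m2 ⊢
  constructor
  · rcases le_or_gt δ (3 / 2) with hd | hd
    · have h9 : (3 / 2 - δ) * y ≤ (3 / 2 - δ) * (3 + x) :=
        mul_le_mul_of_nonneg_left (by linarith) (by linarith)
      nlinarith
    · have h9 : (3 / 2 - δ) * y ≤ (3 / 2 - δ) * x := by nlinarith
      nlinarith
  · have h9 : (3 / 2 + δ / 2) * x ≤ (3 / 2 + δ / 2) * y :=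
      mul_le_mul_of_nonneg_left m1 (by linarith)
    nlinarith

/-- the statement for all the equations linked with the curve `y² = x³ + P x + Q` -/
def LZ (lo hi : ℝ) (P Q : ℤ) : Prop :=
  (∃ (a b : ℤ) (C : VariableChange ℚ),
    C • (⟨0, 0, 0, (P : ℚ), (Q : ℚ)⟩ : WeierstrassCurve ℚ) = ⟨0, a, 0, b, 0⟩) ∧
  ∀ (a b : ℤ) (C : VariableChange ℚ),
    C • (⟨0, 0, 0, (P : ℚ), (Q : ℚ)⟩ : WeierstrassCurve ℚ) = ⟨0, a, 0, b, 0⟩ →
      ∀ q : ℤ × ℤ, Relation.ReflTransGen Next (a, b) q → Ok lo hi q.1 q.2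

/-- the curves with full 2-torsion -/
def TZ (lo hi : ℝ) (c : ℤ × ℤ) : Prop := LZ lo hi c.1 c.2

lemma cc_vc {A B k : ℤ} (hk : A + B = 3 * k) :
    (⟨1, -(k : ℚ), 0, 0⟩ : VariableChange ℚ) •
      (⟨0, 0, 0, ((cc A B k).1 : ℚ), ((cc A B k).2 : ℚ)⟩ : WeierstrassCurve ℚ) = EQ A B := by
  have hkQ : (A : ℚ) + B = 3 * k := by exact_mod_cast hk
  apply WeierstrassCurve.ext
  · rw [variableChange_a₁]; simp [EQ]
  · rw [variableChange_a₂]
    simp only [EQ, Units.val_one, inv_one]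
    linear_combination hkQ
  · rw [variableChange_a₃]; simp [EQ]
  · rw [variableChange_a₄]
    simp only [EQ, Units.val_one, inv_one, cc]
    push_cast
    ring
  · rw [variableChange_a₆]
    simp only [EQ, Units.val_one, inv_one, cc]
    push_cast
    linear_combination (-(k : ℚ) ^ 2) * hkQ

theorem tz_of {A B k : ℤ} (hk : A + B = 3 * k) (h : GP A B) {lo hi : ℝ}
    (hn : ∀ i, Nr lo hi (tri i A B)) : TZ lo hi (cc A B k) := by
  refine ⟨⟨-(A + B), A * B, ⟨1, -(k : ℚ), 0, 0⟩, ?_⟩, fun a b C hC => ?_⟩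
  · have e : (⟨0, ((-(A + B) : ℤ) : ℚ), 0, ((A * B : ℤ) : ℚ), 0⟩ : WeierstrassCurve ℚ) =
        EQ A B := by
      unfold EQ
      push_cast
      rfl
    rw [e]
    exact cc_vc hk
  · obtain ⟨i, v, hv, ha, hb⟩ := eqn_tri hk C hC
    exact fun q hq => ok_of h hn (cl_all h.nsq (Or.inl ⟨i, v, hv, ha, hb⟩) hq)

/-- the choice of the size and the number of all curves -/
lemma size2 (X0 H : ℕ) (hH : 64 * (17 * max X0 1) ^ 6 ≤ H) :
    ∃ X : ℕ, X0 ≤ X ∧ 1 ≤ X ∧ 64 * (17 * X) ^ 6 ≤ H ∧ H ≤ (100 * X) ^ 6 ∧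
      (Cv 2 H).card ≤ 80000 * X ^ 2 := by
  have hex : ∃ X : ℕ, max X0 1 ≤ X ∧ 64 * (17 * X) ^ 6 ≤ H ∧ H < 64 * (17 * (X + 1)) ^ 6 := by
    set P : ℕ → Prop := fun X => 64 * (17 * X) ^ 6 ≤ H with hP
    have hle : max X0 1 ≤ H := by
      have h1 : 17 * max X0 1 ≤ (17 * max X0 1) ^ 6 := Nat.le_self_pow (by norm_num) _
      omega
    refine ⟨Nat.findGreatest P H, Nat.le_findGreatest hle hH, ?_, ?_⟩
    · exact Nat.findGreatest_spec (P := P) hle hH
    · by_contra hlt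
      push Not at hlt
      have h2 : Nat.findGreatest P H + 1 ≤ H := by
        have h1 : (17 * (Nat.findGreatest P H + 1)) ≤ (17 * (Nat.findGreatest P H + 1)) ^ 6 :=
          Nat.le_self_pow (by norm_num) _
        omega
      exact Nat.findGreatest_is_greatest (P := P) (Nat.lt_succ_self _) h2 hlt
  obtain ⟨X, hX1, hX2, hX3⟩ := hex
  have hXX0 : X0 ≤ X := (le_max_left _ _).trans hX1
  have hX11 : 1 ≤ X := (le_max_right _ _).trans hX1
  have h2 : (Cv 2 H).card ≤ (4 * (34 * (X + 1)) + 1) ^ 2 := by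
    apply cv_card _ _ (by omega)
    have : (34 * (X + 1)) ^ 6 = 64 * (17 * (X + 1)) ^ 6 := by ring
    omega
  refine ⟨X, hXX0, hX11, hX2, ?_, h2.trans ?_⟩
  · have h3 : (34 * (X + 1)) ^ 6 = 64 * (17 * (X + 1)) ^ 6 := by ring
    have h4 : (34 * (X + 1)) ^ 6 ≤ (100 * X) ^ 6 := Nat.pow_le_pow_left (by omega) 6
    omega
  · have : 4 * (34 * (X + 1)) + 1 ≤ 273 * X := by omega
    calc (4 * (34 * (X + 1)) + 1) ^ 2 ≤ (273 * X) ^ 2 := by gcongr
      _ = 74529 * X ^ 2 := by ring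
      _ ≤ 80000 * X ^ 2 := by gcongr; norm_num

open Classical in
/-- **a positive proportion of the curves with full rational 2-torsion** -/
theorem full : ∃ c : ℝ, 0 < c ∧ ∀ δ : ℝ, 0 < δ → ∃ H0 : ℕ, ∀ H : ℕ, H0 ≤ H →
    c * ((Cv 2 H).card : ℝ) ≤ (((Cv 2 H).filter (TZ (lo δ H) (hi δ H))).card : ℝ) := by
  obtain ⟨C, hC, hmain⟩ := mainN
  refine ⟨C / 160000, by positivity, fun δ hδ => ?_⟩
  obtain ⟨X0, h⟩ := hmain (δ / 2) (by positivity)
  obtain ⟨M, hM⟩ := loglog δ hδ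
  refine ⟨64 * (17 * max (X0 + M) 1) ^ 6, fun H hH => ?_⟩
  obtain ⟨X, hX0, hX1, hX2, hX3, hX4⟩ := size2 (X0 + M) H hH
  have h1 := h X (by omega)
  have hXH : X ≤ H := by
    have : 17 * X ≤ (17 * X) ^ 6 := Nat.le_self_pow (by norm_num) _
    omega
  obtain ⟨s1, s2⟩ := hM X H (by omega) hXH hX3
  obtain ⟨P, hP⟩ : ∃ P : ℕ × ℕ → Prop, P = GN ((3 / 2 - δ / 2) * Real.log (Real.log X))
      ((3 / 2 + δ / 2) * Real.log (Real.log X)) X := ⟨_, rfl⟩
  obtain ⟨F, hF⟩ : ∃ F, F = (Icc 1 X ×ˢ Icc 1 X).filter P := ⟨_, rfl⟩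
  have h1' : C * (X : ℝ) ^ 2 ≤ F.card := by
    rw [hF, hP]
    exact h1
  obtain ⟨p, hp⟩ : ∃ p : ℕ × ℕ → Prop, p = fun t => TZ (lo δ H) (hi δ H)
      (cc (t.1 : ℤ) (t.2 : ℤ) (((t.1 + t.2) / 3 : ℕ) : ℤ)) := ⟨_, rfl⟩
  have hmem : ∀ t ∈ F, t ∈ Icc 1 X ×ˢ Icc 1 X ∧ P t := by
    intro t ht
    rw [hF, mem_filter] at ht
    exact ht
  have key : ∀ t ∈ F, TZ (lo δ H) (hi δ H)
      (cc (t.1 : ℤ) (t.2 : ℤ) (((t.1 + t.2) / 3 : ℕ) : ℤ)) ∨ TZ (lo δ H) (hi δ H)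
      (cc (17 * (t.1 : ℤ)) (17 * (t.2 : ℤ)) (17 * (((t.1 + t.2) / 3 : ℕ) : ℤ))) := by
    intro t ht
    obtain ⟨g1, g2⟩ := hmem t ht
    rw [hP] at g2
    obtain ⟨g3, g4⟩ := g2
    obtain ⟨f1, -⟩ := factsN g1 (goodN_of g3)
    rcases gp_pair g1 g3 with g | g
    · left
      have hn := fun i => ((g4 1 (Or.inl rfl) i).mono s1 s2)
      rw [one_mul, one_mul] at g hn
      exact tz_of f1 g hn
    · right
      exact tz_of (by linarith) g fun i => ((g4 17 (Or.inr rfl) i).mono s1 s2)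
  have a1 : (F.filter p).card ≤ ((Cv 2 H).filter (TZ (lo δ H) (hi δ H))).card := by
    refine injN1 (N := 2 ^ (0 + 2)) hX2 _ (fun t ht => ⟨(hmem t (mem_filter.1 ht).1).1, ?_⟩)
      (TZ (lo δ H) (hi δ H)) fun t ht => ?_
    · have g2 := (hmem t (mem_filter.1 ht).1).2
      rw [hP] at g2
      exact goodN_of g2.1
    · have := (mem_filter.1 ht).2
      rw [hp] at this
      exact this
  have a2 : (F.filter (fun t => ¬ p t)).card ≤
      ((Cv 2 H).filter (TZ (lo δ H) (hi δ H))).card := by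
    refine injN17 (N := 2 ^ (0 + 2)) hX2 _ (fun t ht => ⟨(hmem t (mem_filter.1 ht).1).1, ?_⟩)
      (TZ (lo δ H) (hi δ H)) fun t ht => ?_
    · have g2 := (hmem t (mem_filter.1 ht).1).2
      rw [hP] at g2
      exact goodN_of g2.1
    · have h4 := (mem_filter.1 ht).2
      rw [hp] at h4
      exact (key t (mem_filter.1 ht).1).resolve_left h4
  have hsum := card_filter_add_card_filter_not (s := F) p
  have k4 : F.card ≤ 2 * ((Cv 2 H).filter (TZ (lo δ H) (hi δ H))).card := by omega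
  have h3' : ((Cv 2 H).card : ℝ) ≤ 80000 * (X : ℝ) ^ 2 := by exact_mod_cast hX4
  have h4' : (F.card : ℝ) ≤ 2 * (((Cv 2 H).filter (TZ (lo δ H) (hi δ H))).card : ℝ) := by
    exact_mod_cast k4
  have h5 : C / 160000 * ((Cv 2 H).card : ℝ) ≤ C / 160000 * (80000 * (X : ℝ) ^ 2) := by gcongr
  have h7 : C / 160000 * (80000 * (X : ℝ) ^ 2) = C * (X : ℝ) ^ 2 / 2 := by ring
  linarith

end Pool.Agent.H15SP
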