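import Pool.Agent.H15SP.Eqn
import Pool.Agent.H15SP.Cnt
import Pool.Agent.H15SP.Elem
import Pool.Agent.X257.PS.Main
import Pool.Agent.Y655.XT.Shavc
import Pool.Agent.R431.NO.Rk

/-!
# The good pairs `(A, B)`
-/

set_option autoImplicit false
set_option linter.unusedSectionVars false

namespace Pool.Agent.H15SP

open WeierstrassCurve

open Pool.Agent.TH841.SH.D (rk)

open Pool.Agent.TH841.LS (WI)

open Pool.Agent.TH841.PT (EQ)

open Pool.Agent.TH841.NO (SQ fo)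

open Pool.Agent.Y676.IS (tri)

open Pool.Agent.W307.RT (Sh)

open Pool.Agent.X257.PS Pool.Agent.Y285.RP Pool.Agent.Y667.RP Pool.Agent.Y667.PA

open scoped Classical in
/-- the rank after a change of variables -/
theorem rk_vc {W W' : WeierstrassCurve ℚ} (C : VariableChange ℚ) (h : C • W = W')
    (hD : W'.Δ ≠ 0) : rk W = rk W' := by
  have hv := Pool.Agent.Y655.XT.vr_of_smul h
  unfold rk
  have e1 := hv.equiv hD
  have e2 := LinearEquiv.finrank_eq e1.toIntLinearEquiv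
  exact e2.symm

lemma disc_vc {W W' : WeierstrassCurve ℚ} (C : VariableChange ℚ) (h : C • W = W')
    (hD : W.Δ ≠ 0) : W'.Δ ≠ 0 := by
  rw [← h, variableChange_Δ]
  exact mul_ne_zero (pow_ne_zero 12 (Units.ne_zero _)) hD

/-- the curve `y² = x³ + a x² + b x` -/
def Ec (a b : ℤ) : WeierstrassCurve ℚ := ⟨0, (a : ℚ), 0, (b : ℚ), 0⟩

/-- the scaling -/
lemma vc_scale {a b a' b' v : ℚ} (hv : v ≠ 0) (ha : a' = a * v ^ 2) (hb : b' = b * v ^ 4) :
    (⟨Units.mk0 v⁻¹ (inv_ne_zero hv), 0, 0, 0⟩ : VariableChange ℚ) •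
      (⟨0, a, 0, b, 0⟩ : WeierstrassCurve ℚ) = ⟨0, a', 0, b', 0⟩ := by
  apply WeierstrassCurve.ext
  · rw [variableChange_a₁]; simp
  · rw [variableChange_a₂]
    simp only [Units.val_inv_eq_inv_val, Units.val_mk0, inv_inv, ha]
    ring
  · rw [variableChange_a₃]; simp
  · rw [variableChange_a₄]
    simp only [Units.val_inv_eq_inv_val, Units.val_mk0, inv_inv, hb]
    ring
  · rw [variableChange_a₆]; simp

/-- the good pairs -/
structure GP (A B : ℤ) : Prop where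
  A0 : A ≠ 0
  B0 : B ≠ 0
  AB : A ≠ B
  nsq : ∀ i : Fin 3, ¬ IsSquare ((tri i A B).1 * (tri i A B).2)
  g : ∀ i : Fin 3, GE (tri i A B).1 (tri i A B).2
  rk : rk (EQ A B) = 0

lemma tri_ne {A B : ℤ} (A0 : A ≠ 0) (B0 : B ≠ 0) (AB : A ≠ B) (i : Fin 3) :
    (tri i A B).1 ≠ 0 ∧ (tri i A B).2 ≠ 0 ∧ (tri i A B).1 ≠ (tri i A B).2 := by
  fin_cases i
  · exact ⟨A0, B0, AB⟩
  · change -A ≠ 0 ∧ B - A ≠ 0 ∧ -A ≠ B - A
    omega
  · change -B ≠ 0 ∧ A - B ≠ 0 ∧ -B ≠ A - B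
    omega

/-- the conclusion for one equation -/
structure Fi (lo hi : ℝ) (a b : ℤ) : Prop where
  s1 : SQ (-2 * a) (a ^ 2 - 4 * b) ⊆ {1}
  e1 : Even (fo a b)
  l1 : lo ≤ (fo a b : ℝ)
  u1 : (fo a b : ℝ) ≤ hi
  e2 : SQ (-2 * (-2 * a)) ((-2 * a) ^ 2 - 4 * (a ^ 2 - 4 * b)) = SQ a b
  r1 : rk (Ec a b) = 0
  r2 : rk (Ec (-2 * a) (a ^ 2 - 4 * b)) = 0

/-- the conclusion for the equations with the roots `0`, `A v²`, `B v²` -/
theorem fi_of {A B : ℤ} {v : ℚ} (hv : v ≠ 0) {a b : ℤ} (ha : (a : ℚ) = -(A + B) * v ^ 2)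
    (hb : (b : ℚ) = A * B * v ^ 4) (A0 : A ≠ 0) (B0 : B ≠ 0) (AB : A ≠ B) (h : GE A B)
    {lo hi : ℝ} (hn : Nr lo hi (A, B)) (hr : rk (EQ A B) = 0) : Fi lo hi a b := by
  obtain ⟨g1, g2⟩ := gd_rat hv ha hb A0 B0 AB h
  have e1 := sq_rat hv ha hb A0 B0 AB
  have e2 : fo a b = fo (-(A + B)) (A * B) := by unfold fo; rw [e1]
  obtain ⟨n1, n2⟩ := hn
  have e3 : SQ (-2 * (-2 * a)) ((-2 * a) ^ 2 - 4 * (a ^ 2 - 4 * b)) = SQ a b := by
    rw [e1]
    refine sq_rat (v := 2 * v) (mul_ne_zero two_ne_zero hv) ?_ ?_ A0 B0 AB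
    · push_cast
      rw [ha]; ring
    · push_cast
      rw [hb]; ring
  obtain ⟨A', B', m, n, hm, hn', f1, f2, f3, f4⟩ := rat_int hv ha hb
  have hm2 : m ^ 2 ≠ 0 := pow_ne_zero 2 hm
  have A0' : A' ≠ 0 := by
    rintro rfl
    exact mul_ne_zero A0 hm2 (by rw [← f1, zero_mul])
  have B0' : B' ≠ 0 := by
    rintro rfl
    exact mul_ne_zero B0 hm2 (by rw [← f2, zero_mul])
  have AB' : A' ≠ B' := by
    rintro rfl
    exact AB (mul_right_cancel₀ hm2 (f1.symm.trans f2))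
  have w1 : EQ A' B' = Ec a b := by
    unfold EQ Ec
    rw [f3, f4]
    push_cast
    rfl
  have w2 : WI A' B' = Ec (-2 * a) (a ^ 2 - 4 * b) := by
    unfold WI Ec
    rw [f3, f4]
    congr 1
    · push_cast; ring
    · push_cast; ring
  have hD := EQ_disc A0 B0 AB
  have hC : (⟨Units.mk0 v⁻¹ (inv_ne_zero hv), 0, 0, 0⟩ : VariableChange ℚ) • EQ A B = Ec a b :=
    vc_scale hv (by rw [ha]) (by rw [hb])
  have r1 : rk (Ec a b) = 0 := by rw [← hr, rk_vc _ hC (disc_vc _ hC hD)]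
  have r2 : rk (Ec (-2 * a) (a ^ 2 - 4 * b)) = 0 := by
    rw [← w2]
    have := Pool.Agent.R431.NO.rk_WI_le AB' A0' B0'
    rw [w1, r1] at this
    exact Nat.le_zero.1 this
  exact ⟨g1, g2, by rw [e2]; exact n1, by rw [e2]; exact n2, e3, r1, r2⟩

lemma tri_rk {A B : ℤ} (A0 : A ≠ 0) (B0 : B ≠ 0) (AB : A ≠ B) (h : rk (EQ A B) = 0) (i : Fin 3) :
    rk (EQ (tri i A B).1 (tri i A B).2) = 0 := by
  have hD := EQ_disc A0 B0 AB
  fin_cases i
  · exact h
  · have hC : (⟨1, (A : ℚ), 0, 0⟩ : VariableChange ℚ) • EQ A B = EQ (-A) (B - A) := by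
      apply WeierstrassCurve.ext
      · rw [variableChange_a₁]; simp [EQ]
      · rw [variableChange_a₂]
        simp only [EQ, Units.val_one, inv_one]
        push_cast; ring
      · rw [variableChange_a₃]; simp [EQ]
      · rw [variableChange_a₄]
        simp only [EQ, Units.val_one, inv_one]
        push_cast; ring
      · rw [variableChange_a₆]
        simp only [EQ, Units.val_one, inv_one]
        ring
    change rk (EQ (-A) (B - A)) = 0
    rw [← rk_vc _ hC (disc_vc _ hC hD)]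
    exact h
  · have hC : (⟨1, (B : ℚ), 0, 0⟩ : VariableChange ℚ) • EQ A B = EQ (-B) (A - B) := by
      apply WeierstrassCurve.ext
      · rw [variableChange_a₁]; simp [EQ]
      · rw [variableChange_a₂]
        simp only [EQ, Units.val_one, inv_one]
        push_cast; ring
      · rw [variableChange_a₃]; simp [EQ]
      · rw [variableChange_a₄]
        simp only [EQ, Units.val_one, inv_one]
        push_cast; ring
      · rw [variableChange_a₆]
        simp only [EQ, Units.val_one, inv_one]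
        ring
    change rk (EQ (-B) (A - B)) = 0
    rw [← rk_vc _ hC (disc_vc _ hC hD)]
    exact h

/-- the product of the roots is not a square -/
lemma hy_nsq {s : Fin 3 → ℕ} {D : ℕ} (h : Hy s D) :
    ¬ IsSquare ((D : ℤ) * s 0 * ((D : ℤ) * s 1)) := by
  have hD0 : (0 : ℤ) < D := by exact_mod_cast h.dat.D0
  have p2 : (0 : ℤ) < s 2 := by exact_mod_cast h.dat.pos 2
  have hd1 := h.dat.dif
  have g1 : 1 < s 1 := by have := h.n1; omega
  have g0 : 1 < s 0 := by omega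
  have q01 : Squarefree (s 0 * s 1) := by
    rw [Nat.squarefree_mul_iff]
    exact ⟨h.dat.cop01, h.dat.sqj 0, h.dat.sqj 1⟩
  have sqc : ∀ {u v : ℤ}, u ≠ 0 → IsSquare (u ^ 2 * v) → IsSquare v := by
    intro u v hu h
    obtain ⟨r, hr⟩ := h
    have h1 : u ∣ r := by
      have : u ^ 2 ∣ r ^ 2 := ⟨v, by rw [hr]; ring⟩
      exact (Int.pow_dvd_pow_iff two_ne_zero).1 this
    obtain ⟨c, rfl⟩ := h1
    refine ⟨c, mul_left_cancel₀ (pow_ne_zero 2 hu) (by linear_combination hr)⟩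
  intro h1
  have h2 : (D : ℤ) * s 0 * ((D : ℤ) * s 1) = (D : ℤ) ^ 2 * ((s 0 * s 1 : ℕ) : ℤ) := by
    push_cast; ring
  rw [h2] at h1
  exact nsq_sqf q01 (lt_of_lt_of_le g0 (Nat.le_mul_of_pos_right _ (by omega)))
    (sqc hD0.ne' h1)

/-- the products of the roots are not squares -/
lemma hy_nsq3 {s : Fin 3 → ℕ} {D : ℕ} (h : Hy s D) (i : Fin 3) :
    ¬ IsSquare ((tri i ((D : ℤ) * s 0) ((D : ℤ) * s 1)).1 *
      (tri i ((D : ℤ) * s 0) ((D : ℤ) * s 1)).2) := by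
  have hD0 : (0 : ℤ) < D := by exact_mod_cast h.dat.D0
  have p1 : (0 : ℤ) < s 1 := by exact_mod_cast h.dat.pos 1
  have p2 : (0 : ℤ) < s 2 := by exact_mod_cast h.dat.pos 2
  have hdif := h.dat.dif'
  fin_cases i
  · exact hy_nsq h
  · change ¬ IsSquare (-((D : ℤ) * s 0) * ((D : ℤ) * s 1 - (D : ℤ) * s 0))
    have e : -((D : ℤ) * s 0) * ((D : ℤ) * s 1 - (D : ℤ) * s 0) =
        32 * (((D * s 0) * (D * s 2) : ℕ) : ℤ) := by
      push_cast
      linear_combination ((D : ℤ) * s 0) * hdif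
    rw [e]
    have o0 : s 0 % 2 = 1 := by have := h.m0; omega
    have o2 : s 2 % 2 = 1 := by
      have h1 := h.dat.odd
      rw [Fin.prod_univ_three] at h1
      exact Nat.odd_iff.1 (Nat.odd_mul.1 h1).2
    have oD : D % 2 = 1 := by
      rcases h.hD with h1 | h1 <;> rw [h1]
    have o : ((D * s 0) * (D * s 2)) % 2 = 1 :=
      Nat.odd_iff.1 (((Nat.odd_iff.2 oD).mul (Nat.odd_iff.2 o0)).mul
        ((Nat.odd_iff.2 oD).mul (Nat.odd_iff.2 o2)))
    exact nsq32 (by omega)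
  · change ¬ IsSquare (-((D : ℤ) * s 1) * ((D : ℤ) * s 0 - (D : ℤ) * s 1))
    apply nsq_neg
    rw [hdif]
    have h1 := mul_pos hD0 p1
    have h2 := mul_pos hD0 p2
    have h3 := mul_pos h1 h2
    linarith

/-- the rank -/
lemma rk_zero {A B k : ℤ} (hk : A + B = 3 * k) (A0 : A ≠ 0) (B0 : B ≠ 0) (AB : A ≠ B)
    (hT : TPR 0 (cc A B k)) : rk (EQ A B) = 0 := by
  obtain ⟨h1, h2, -, -⟩ := hT
  have hD : 4 * (cc A B k).1 ^ 3 + 27 * (cc A B k).2 ^ 2 ≠ 0 := by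
    rw [cc_disc hk, neg_ne_zero]
    exact mul_ne_zero (mul_ne_zero (pow_ne_zero 2 A0) (pow_ne_zero 2 B0))
      (pow_ne_zero 2 (sub_ne_zero.2 AB))
  have hkQ : (A : ℚ) + B = 3 * k := by exact_mod_cast hk
  have hC : (⟨1, -(k : ℚ), 0, 0⟩ : VariableChange ℚ) • Sh (cc A B k).1 (cc A B k).2 =
      EQ A B := by
    apply WeierstrassCurve.ext
    · rw [variableChange_a₁]; simp [EQ, Sh]
    · rw [variableChange_a₂]
      simp only [EQ, Sh, Units.val_one, inv_one]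
      linear_combination hkQ
    · rw [variableChange_a₃]; simp [EQ, Sh]
    · rw [variableChange_a₄]
      simp only [EQ, Sh, Units.val_one, inv_one, cc]
      push_cast
      ring
    · rw [variableChange_a₆]
      simp only [EQ, Sh, Units.val_one, inv_one, cc]
      push_cast
      linear_combination (-(k : ℚ) ^ 2) * hkQ
  rw [← rk_vc _ hC (EQ_disc A0 B0 AB)]
  by_contra hcon
  have h3 := Pool.Agent.Y155.RP.RK2 (cc A B k).1 (cc A B k).2 _ _ _ hD (cc_root hk) h1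
    (by
      have : 1 ≤ rk (Sh (cc A B k).1 (cc A B k).2) := by omega
      exact this)
  rw [h2] at h3
  have h4 := (Nat.pow_le_pow_iff_right (by norm_num : 1 < 2)).1 h3
  have h5 : rk (Sh (cc A B k).1 (cc A B k).2) + 2 ≤ 0 + 2 := h4
  omega

/-- the good pairs from the data -/
lemma gp_of {s : Fin 3 → ℕ} {D : ℕ} (h : Hy s D) (hP : PH s D)
    (hf : (Pool.Agent.W307.SE.Sel ((D : ℤ) * s 0) ((D : ℤ) * s 1)).Finite)
    (hc : (Pool.Agent.W307.SE.Sel ((D : ℤ) * s 0) ((D : ℤ) * s 1)).ncard ≤ 4) {A B k : ℤ}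
    (hA : A = (D : ℤ) * s 0) (hB : B = (D : ℤ) * s 1) (hk : A + B = 3 * k)
    (hT : TPR 0 (cc A B k)) : GP A B := by
  obtain ⟨g0, g1, g2⟩ := h.good hP hf hc
  have nsq := hy_nsq3 h
  rw [← hA, ← hB] at g0 g1 g2 nsq
  have hD0 : (0 : ℤ) < D := by exact_mod_cast h.dat.D0
  have p0 : (0 : ℤ) < s 0 := by exact_mod_cast h.dat.pos 0
  have p1 : (0 : ℤ) < s 1 := by exact_mod_cast h.dat.pos 1
  have p2 : (0 : ℤ) < s 2 := by exact_mod_cast h.dat.pos 2
  have hdif := h.dat.dif'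
  have A0 : A ≠ 0 := by rw [hA]; exact (mul_pos hD0 p0).ne'
  have B0 : B ≠ 0 := by rw [hB]; exact (mul_pos hD0 p1).ne'
  have AB : A ≠ B := by
    intro h1
    rw [hA, hB] at h1
    have := mul_pos hD0 p2
    omega
  refine ⟨A0, B0, AB, nsq, fun i => ?_, rk_zero hk A0 B0 AB hT⟩
  fin_cases i
  · exact g0
  · exact g1
  · exact g2

open Finset in
/-- the pair itself or the pair multiplied by `17` -/
theorem gp_pair {X : ℕ} {t : ℕ × ℕ} (ht : t ∈ Icc 1 X ×ˢ Icc 1 X)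
    (h : Pool.Agent.Y667.MT.GoodR 0 X t) :
    GP (1 * (t.1 : ℤ)) (1 * (t.2 : ℤ)) ∨ GP (17 * (t.1 : ℤ)) (17 * (t.2 : ℤ)) := by
  obtain ⟨s, e0, e1, hk, ⟨h1, h2, h3, h4, h5⟩ | ⟨h1, h2, h3, h4, h5⟩⟩ := pair2 ht h
  · left
    rw [one_mul, one_mul]
    refine gp_of h1 h2 ?_ ?_ (by rw [← e0, Nat.cast_one, one_mul]) (by rw [← e1, Nat.cast_one,
      one_mul]) (by rw [← e0, ← e1]; exact hk) h5
    · rw [Nat.cast_one, one_mul, one_mul]; exact h3
    · rw [Nat.cast_one, one_mul, one_mul, h4]; norm_num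
  · right
    refine gp_of h1 h2 ?_ ?_ (by rw [← e0]; rfl) (by rw [← e1]; rfl)
      (by rw [← e0, ← e1]; linarith) h5
    · exact h3
    · have : (Pool.Agent.W307.SE.Sel (((17 : ℕ) : ℤ) * (s 0 : ℤ))
        (((17 : ℕ) : ℤ) * (s 1))).ncard = 2 ^ 2 := h4
      rw [this]
      norm_num

end Pool.Agent.H15SP
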